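import Mathlib

/-!
Definitions of the package P325q (MP_325f1f_lc, hand-in DecompositionExponent): weighted multigraphs,
fractional partitions, their cut energy, and the slow spaces of a part.  `s e`, `t e` are the ends of
the edge `e` (loops are allowed) and `w e` is its weight.
-/

open scoped BigOperators

namespace Pool.Agent.Lib.P325q

variable {V ι I : Type}

/-- The density of a vertex: half of the weighted number of edge ends at `x`. -/
noncomputable def density [DecidableEq V] [Fintype ι] (s t : ι → V) (w : ι → ℝ) (x : V) : ℝ :=
  (∑ e, w e * ((if s e = x then 1 else 0) + (if t e = x then 1 else 0))) / 2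

/-- A fractional partition: finitely many nonnegative functions (the parts) with sum `1`. -/
def IsFracPartition [Fintype I] (ρ : I → V → ℝ) : Prop :=
  (∀ i x, 0 ≤ ρ i x) ∧ ∀ x, ∑ i, ρ i x = 1

/-- The cut energy of a family of parts.  For a partition into sets it is twice the weight of the
edges between different sets. -/
noncomputable def cutEnergy [Fintype ι] [Fintype I] (s t : ι → V) (w : ι → ℝ)
    (ρ : I → V → ℝ) : ℝ :=
  ∑ i, ∑ e, w e * (√(ρ i (s e)) - √(ρ i (t e))) ^ 2

/-- The squared norm of a function `f` on the part `σ`. -/
noncomputable def mass [Fintype V] [DecidableEq V] [Fintype ι] (s t : ι → V) (w : ι → ℝ)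
    (σ f : V → ℝ) : ℝ :=
  ∑ x, density s t w x * σ x * f x ^ 2

/-- The energy of a function `f` on the part `σ`. -/
noncomputable def energy [Fintype ι] (s t : ι → V) (w : ι → ℝ) (σ f : V → ℝ) : ℝ :=
  ∑ e, w e * (√(σ (s e) * σ (t e)) * (f (s e) - f (t e)) ^ 2)

/-- `F` is a space of functions whose Rayleigh quotients on the part `σ` are at most `η`.  The largest
dimension of such a space is the number of eigenvalues of the part that are at most `η`. -/
def IsSlow [Fintype V] [DecidableEq V] [Fintype ι] (s t : ι → V) (w : ι → ℝ) (σ : V → ℝ) (η : ℝ)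
    (F : Submodule ℝ (V → ℝ)) : Prop :=
  ∀ f ∈ F, f ≠ 0 → 0 < mass s t w σ f ∧ energy s t w σ f ≤ η * mass s t w σ f

end Pool.Agent.Lib.P325q
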