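import Pool.Agent.Lib.P325q.ExtUp
import Pool.Agent.Lib.P325qz.SetUp

/-!
P325q.ExtSet: the decomposition theorem for partitions into sets, for the label-extended graphs of all
unique games on a weighted multigraph (the proof of `P325qz.upper_set` of helper24, with the trace of
the lift bounded by `|L|` times the trace of the base).
-/

open scoped BigOperators

namespace Pool.Agent.Lib.P325q

open Finset Real Matrix
open Pool.Agent.Lib.P325s (walk lap lamMax walkL lapL)
open Pool.Agent.Lib.P325u (sum_subtype_eq)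
open P325qz (trace_ge density_nonneg density_pos density_sum trace_walk_le_sq nash_restrict_sq
  nash_set exists_opt ind cls mem_cls ind_nonneg ind_of_mem ind_of_not_mem)
open ExtUpAux (trace_lift lapL_quad)

namespace ExtSetAux

/-- **Counting small eigenvalues of the lift** from a Nash type inequality of the base. -/
theorem count_lift_sq {T ι L : Type} [Fintype T] [DecidableEq T] [Fintype ι]
    [Fintype L] [DecidableEq L]
    (μ : T → ℝ) (s t : ι → T) (g : ι → Equiv.Perm L) (w : ι → ℝ) (b : ℝ)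
    (hμ : ∀ x, 0 < μ x) (hμ1 : ∑ x, μ x = 1) (hw : ∀ e, 0 ≤ w e) (hb : 0 < b)
    (hnash : ∀ g : T → ℝ, (∀ x, 0 ≤ g x) → ∑ x, μ x * g x = 1 →
      b * ((∑ x, μ x * g x ^ 2) * Real.log (∑ x, μ x * g x ^ 2) ^ 2) ≤
        ∑ e, w e * (g (s e) - g (t e)) ^ 2)
    {η T0 : ℝ} (hT0 : 0 < T0) (F : Submodule ℝ (T × L → ℝ))
    (hF : ∀ f ∈ F, f ≠ 0 → ∑ e, w e * ∑ a, (f (s e, a) - f (t e, g e a)) ^ 2 ≤
      η * ∑ p : T × L, μ p.1 * f p ^ 2) :
    (Module.finrank ℝ F : ℝ) ≤ Fintype.card L *
      Real.exp (2 * T0 * η + 1 / (2 * b * T0)) := by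
  classical
  -- the space in the normalised coordinates
  set D : (T × L → ℝ) ≃ₗ[ℝ] (T × L → ℝ) := LinearEquiv.piCongrRight fun p =>
    LinearEquiv.smulOfNeZero ℝ ℝ (√(μ p.1)) (Real.sqrt_pos.2 (hμ p.1)).ne' with hD
  have hDa : ∀ f p, D f p = √(μ p.1) * f p := fun f p => rfl
  set F' : Submodule ℝ (T × L → ℝ) := F.map (D : (T × L → ℝ) →ₗ[ℝ] (T × L → ℝ)) with hF'
  have hfr : Module.finrank ℝ F' = Module.finrank ℝ F := LinearEquiv.finrank_map_eq D F
  have hA : (lapL μ s t g w).IsSymm := by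
    apply Matrix.IsSymm.ext
    intro x y
    unfold Pool.Agent.Lib.P325s.lapL
    refine Finset.sum_congr rfl fun e _ => ?_
    congr 1
    exact Finset.sum_congr rfl fun a _ => mul_comm _ _
  have hF2 : ∀ f ∈ F', f ≠ 0 → 0 < ∑ x, f x ^ 2 ∧
      ∑ x, ∑ y, f x * (lapL μ s t g w) x y * f y ≤ η * ∑ x, f x ^ 2 := by
    intro f hf hf0
    obtain ⟨h, hh, rfl⟩ := (Submodule.mem_map).1 hf
    have hg0 : h ≠ 0 := fun hz => hf0 (by rw [hz]; simp)
    constructor
    · by_contra hcon
      have h1 : ∑ x, ((D : (T × L → ℝ) →ₗ[ℝ] (T × L → ℝ)) h) x ^ 2 = 0 :=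
        le_antisymm (not_lt.1 hcon) (Finset.sum_nonneg fun x _ => sq_nonneg _)
      apply hf0
      funext x
      have := (Finset.sum_eq_zero_iff_of_nonneg fun x _ => sq_nonneg _).1 h1 x (mem_univ x)
      exact pow_eq_zero_iff two_ne_zero |>.1 this
    · rw [lapL_quad]
      have h3 : ∀ p : T × L, ((D : (T × L → ℝ) →ₗ[ℝ] (T × L → ℝ)) h) p / √(μ p.1) = h p := by
        intro p
        have h4 := (Real.sqrt_pos.2 (hμ p.1)).ne'
        change √(μ p.1) * h p / √(μ p.1) = h p
        field_simp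
      have h5 : ∀ p : T × L, ((D : (T × L → ℝ) →ₗ[ℝ] (T × L → ℝ)) h) p ^ 2 =
          μ p.1 * h p ^ 2 := by
        intro p
        change (√(μ p.1) * h p) ^ 2 = _
        rw [mul_pow, Real.sq_sqrt (hμ p.1).le]
      have h6 : ∀ e a, ((D : (T × L → ℝ) →ₗ[ℝ] (T × L → ℝ)) h) (s e, a) / √(μ (s e)) -
          ((D : (T × L → ℝ) →ₗ[ℝ] (T × L → ℝ)) h) (t e, g e a) / √(μ (t e)) =
          h (s e, a) - h (t e, g e a) := fun e a => by
        rw [h3 (s e, a), h3 (t e, g e a)]
      simp only [h6, h5]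
      exact hF h hh hg0
  rw [← hfr]
  set d : ℝ := (Module.finrank ℝ F' : ℝ) with hd
  have hd0 : 0 ≤ d := Nat.cast_nonneg _
  set Λ : ℝ := lamMax μ s t w with hΛ
  -- the limits
  have hg1 : Filter.Tendsto (fun n : ℕ => (1 + (-(T0 * η)) / (n : ℝ)) ^ n)
      Filter.atTop (nhds (Real.exp (-(T0 * η)))) :=
    Real.tendsto_one_add_div_pow_exp _
  have hLim : Filter.Tendsto (fun n : ℕ => d * ((1 + (-(T0 * η)) / (n : ℝ)) ^ n) ^ 2)
      Filter.atTop (nhds (d * Real.exp (-(T0 * η)) ^ 2)) :=
    (hg1.pow 2).const_mul d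
  have hinv : Filter.Tendsto (fun n : ℕ => ((n : ℝ))⁻¹) Filter.atTop (nhds 0) :=
    tendsto_inv_atTop_nhds_zero_nat
  have hR : Filter.Tendsto (fun n : ℕ => (Fintype.card L : ℝ) *
      Real.exp (1 / (2 * b * T0 * (1 - Λ * T0 / 2 * (n : ℝ)⁻¹))))
      Filter.atTop (nhds ((Fintype.card L : ℝ) * Real.exp (1 / (2 * b * T0)))) := by
    refine Filter.Tendsto.const_mul _ ((Real.continuous_exp.tendsto _).comp ?_)
    have h1 : Filter.Tendsto (fun n : ℕ => 2 * b * T0 * (1 - Λ * T0 / 2 * (n : ℝ)⁻¹))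
        Filter.atTop (nhds (2 * b * T0 * (1 - Λ * T0 / 2 * 0))) :=
      (tendsto_const_nhds.sub (hinv.const_mul _)).const_mul _
    rw [mul_zero, sub_zero, mul_one] at h1
    exact Filter.Tendsto.div tendsto_const_nhds h1 (by positivity)
  have hc : Filter.Tendsto (fun n : ℕ => (n : ℝ) / T0) Filter.atTop Filter.atTop :=
    tendsto_natCast_atTop_atTop.atTop_div_const hT0
  have hev : ∀ᶠ n : ℕ in Filter.atTop,
      d * ((1 + (-(T0 * η)) / (n : ℝ)) ^ n) ^ 2 ≤ (Fintype.card L : ℝ) *
        Real.exp (1 / (2 * b * T0 * (1 - Λ * T0 / 2 * (n : ℝ)⁻¹))) := by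
    filter_upwards [hc.eventually_ge_atTop Λ,
      hc.eventually_ge_atTop η, hc.eventually_gt_atTop 0, Filter.eventually_gt_atTop 0] with
      n h1 h3 h4 h5
    have hn' : (n : ℝ) ≠ 0 := by exact_mod_cast h5.ne'
    have h6 := trace_walk_le_sq μ s t w b hμ hμ1 hw hb hnash h4 h1 h5
    have h7 := trace_ge (lapL μ s t g w) hA h4 h3 F' hF2 n
    have h8 := trace_lift μ s t g w hμ hw h4 h1 (2 * n)
    have e1 : 1 + (-(T0 * η)) / (n : ℝ) = 1 - η / ((n : ℝ) / T0) := by
      field_simp
      try ring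
    have e2 : 2 * b * T0 * (1 - Λ * T0 / 2 * (n : ℝ)⁻¹) =
        (2 * b / ((n : ℝ) / T0) * (1 - Λ / (2 * ((n : ℝ) / T0)))) * n := by
      field_simp
      try ring
    rw [e1, e2, ← pow_mul, mul_comm n 2]
    refine (h7.trans h8).trans ?_
    exact mul_le_mul_of_nonneg_left h6 (Nat.cast_nonneg _)
  have hlim := le_of_tendsto_of_tendsto hLim hR hev
  have hexp : Real.exp (-(T0 * η)) ^ 2 * Real.exp (2 * T0 * η) = 1 := by
    rw [← Real.exp_nat_mul, ← Real.exp_add, ← Real.exp_zero]
    congr 1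
    push_cast
    ring
  calc d = d * Real.exp (-(T0 * η)) ^ 2 * Real.exp (2 * T0 * η) := by
        rw [mul_assoc, hexp, mul_one]
    _ ≤ _ := mul_le_mul_of_nonneg_right hlim (Real.exp_pos _).le
    _ = _ := by
      rw [mul_assoc, ← Real.exp_add, add_comm (1 / (2 * b * T0))]

/-- The number of small eigenvalues of the label-extended graph of a part. -/
theorem part_count_lift_sq {V ι L : Type} [Fintype V] [DecidableEq V] [Nonempty V] [Fintype ι]
    [Fintype L] [DecidableEq L] (g : ι → Equiv.Perm L)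
    (s t : ι → V) (W : ι → ℝ) (hW : ∀ e, 0 ≤ W e) (p : V → ℝ) (hp : ∀ x, 0 ≤ p x)
    (hWp : ∀ e, W e ≠ 0 → 0 < p (s e) ∧ 0 < p (t e)) (ρ : V → ℝ) (hρ : ∀ x, 0 ≤ ρ x)
    (lam : ℝ) (hlam : 0 < lam)
    (hnash : ∀ g : V → ℝ, (∀ x, 0 ≤ g x) → ∑ x, p x * ρ x * g x = ∑ x, p x * ρ x →
      lam * ((∑ x, p x * ρ x * g x ^ 2) *
        Real.log ((∑ x, p x * ρ x * g x ^ 2) / ∑ x, p x * ρ x) ^ 2) ≤
      ∑ e, W e * (√(ρ (s e) * ρ (t e)) * (g (s e) - g (t e)) ^ 2))
    {η T0 : ℝ} (hT0 : 0 < T0) (F : Submodule ℝ (V × L → ℝ))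
    (hF : ∀ f ∈ F, f ≠ 0 → 0 < ∑ x, ∑ a, p x * ρ x * f (x, a) ^ 2 ∧
      ∑ e, ∑ a, W e * (√(ρ (s e) * ρ (t e)) * (f (s e, a) - f (t e, g e a)) ^ 2) ≤
        η * ∑ x, ∑ a, p x * ρ x * f (x, a) ^ 2) :
    (Module.finrank ℝ F : ℝ) ≤ Fintype.card L *
      Real.exp (2 * T0 * η + 1 / (2 * lam * T0)) := by
  classical
  have hmul : ∀ x, ¬ 0 < p x * ρ x → p x * ρ x = 0 := fun x h =>
    le_antisymm (not_lt.1 h) (mul_nonneg (hp x) (hρ x))
  have hR0 : 0 ≤ (Fintype.card L : ℝ) * Real.exp (2 * T0 * η + 1 / (2 * lam * T0)) := by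
    positivity
  rcases (Finset.sum_nonneg fun x (_ : x ∈ univ) => mul_nonneg (hp x) (hρ x)).eq_or_lt with
    hm | hm
  · -- no mass
    have hz : ∀ x, p x * ρ x = 0 := fun x =>
      (Finset.sum_eq_zero_iff_of_nonneg fun x _ => mul_nonneg (hp x) (hρ x)).1 hm.symm x
        (mem_univ x)
    have hbot : F = ⊥ := by
      rw [Submodule.eq_bot_iff]
      intro f hf
      by_contra hne
      have h1 := (hF f hf hne).1
      simp only [hz, zero_mul, Finset.sum_const_zero] at h1
      exact lt_irrefl _ h1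
    rw [hbot, finrank_bot]
    simpa using hR0
  · set m : ℝ := ∑ x, p x * ρ x with hmdef
    let T := {x : V // 0 < p x * ρ x}
    let ι' := {e : ι // 0 < p (s e) * ρ (s e) ∧ 0 < p (t e) * ρ (t e)}
    let μ : T → ℝ := fun x => p x * ρ x / m
    let s' : ι' → T := fun e => ⟨s e, e.2.1⟩
    let t' : ι' → T := fun e => ⟨t e, e.2.2⟩
    let g' : ι' → Equiv.Perm L := fun e => g e
    let w' : ι' → ℝ := fun e => W e * √(ρ (s e) * ρ (t e)) / m
    have hμpos : ∀ x, 0 < μ x := fun x => div_pos x.2 hm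
    have hμ1 : ∑ x, μ x = 1 := by
      have h1 := sum_subtype_eq (fun x => 0 < p x * ρ x) (fun x => p x * ρ x / m)
        (fun x h => by rw [hmul x h, zero_div])
      rw [← h1, ← Finset.sum_div, div_self hm.ne']
    have hTne : Nonempty T := by
      by_contra hne
      rw [not_nonempty_iff] at hne
      have : ∑ x, μ x = 0 := by
        rw [Finset.univ_eq_empty, Finset.sum_empty]
      rw [hμ1] at this
      exact one_ne_zero this
    have hw' : ∀ e, 0 ≤ w' e := fun e =>
      div_nonneg (mul_nonneg (hW _) (Real.sqrt_nonneg _)) hm.le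
    set r : (V × L → ℝ) →ₗ[ℝ] (T × L → ℝ) :=
      LinearMap.funLeft ℝ ℝ (fun y : T × L => ((y.1 : V), y.2)) with hr
    have hra : ∀ f (x : T) a, r f (x, a) = f (x.1, a) := fun f x a => rfl
    -- the two forms on the restricted functions
    have hmassr : ∀ f : V × L → ℝ, ∑ y : T × L, μ y.1 * r f y ^ 2 =
        (∑ x, ∑ a, p x * ρ x * f (x, a) ^ 2) / m := by
      intro f
      rw [sum_subtype_eq (fun x => 0 < p x * ρ x) (fun x => ∑ a, p x * ρ x * f (x, a) ^ 2)
        (fun x h => Finset.sum_eq_zero fun a _ => by rw [hmul x h, zero_mul]), Finset.sum_div,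
        Fintype.sum_prod_type]
      refine Finset.sum_congr rfl fun x _ => ?_
      rw [Finset.sum_div]
      refine Finset.sum_congr rfl fun a _ => ?_
      rw [hra]
      change p x * ρ x / m * f (x.1, a) ^ 2 = _
      ring
    have henr : ∀ f : V × L → ℝ,
        ∑ e, w' e * ∑ a, (r f (s' e, a) - r f (t' e, g' e a)) ^ 2 =
        (∑ e, ∑ a, W e * (√(ρ (s e) * ρ (t e)) * (f (s e, a) - f (t e, g e a)) ^ 2)) / m := by
      intro f
      rw [sum_subtype_eq (fun e => 0 < p (s e) * ρ (s e) ∧ 0 < p (t e) * ρ (t e))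
        (fun e => ∑ a, W e * (√(ρ (s e) * ρ (t e)) * (f (s e, a) - f (t e, g e a)) ^ 2)),
        Finset.sum_div]
      · refine Finset.sum_congr rfl fun e _ => ?_
        rw [Finset.sum_div, Finset.mul_sum]
        refine Finset.sum_congr rfl fun a _ => ?_
        change W e * √(ρ (s e) * ρ (t e)) / m * (f (s e, a) - f (t e, g e a)) ^ 2 = _
        ring
      · intro e he
        by_cases hWe : W e = 0
        · exact Finset.sum_eq_zero fun a _ => by rw [hWe, zero_mul]
        · have h3 := hWp e hWe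
          have h4 : ρ (s e) * ρ (t e) = 0 := by
            by_contra hne
            have h5 : ρ (s e) ≠ 0 := left_ne_zero_of_mul hne
            have h6 : ρ (t e) ≠ 0 := right_ne_zero_of_mul hne
            exact he ⟨mul_pos h3.1 (lt_of_le_of_ne (hρ _) (Ne.symm h5)),
              mul_pos h3.2 (lt_of_le_of_ne (hρ _) (Ne.symm h6))⟩
          refine Finset.sum_eq_zero fun a _ => ?_
          rw [h4]
          simp
    have hinj : Function.Injective (r.domRestrict F) := by
      rw [← LinearMap.ker_eq_bot, LinearMap.ker_eq_bot']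
      intro f hf
      by_contra hne
      have hne' : (f : V × L → ℝ) ≠ 0 := fun h => hne (Subtype.ext h)
      have h1 := (hF f f.2 hne').1
      have h2 := hmassr (f : V × L → ℝ)
      have h3 : r (f : V × L → ℝ) = 0 := hf
      rw [h3] at h2
      simp only [Pi.zero_apply] at h2
      have h4 : (∑ x, ∑ a, p x * ρ x * (f : V × L → ℝ) (x, a) ^ 2) / m = 0 := by
        rw [← h2]; simp
      have h5 := div_pos h1 hm
      linarith
    have hfr : Module.finrank ℝ (LinearMap.range (r.domRestrict F)) = Module.finrank ℝ F :=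
      LinearMap.finrank_range_of_inj hinj
    have hcount := count_lift_sq μ s' t' g' w' lam hμpos hμ1 hw' hlam
      (fun g hg hg1 => nash_restrict_sq s t W p ρ hρ hWp hp lam m hm rfl hnash g hg hg1)
      (η := η) hT0 (LinearMap.range (r.domRestrict F)) (by
        rintro h ⟨f, rfl⟩ hg0
        have hne' : (f : V × L → ℝ) ≠ 0 := by
          intro h
          apply hg0
          have : f = 0 := Subtype.ext h
          rw [this, map_zero]
        have h1 := (hF f f.2 hne').2
        change ∑ e, w' e * ∑ a, (r (f : V × L → ℝ) (s' e, a) -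
            r (f : V × L → ℝ) (t' e, g' e a)) ^ 2 ≤
          η * ∑ y : T × L, μ y.1 * r (f : V × L → ℝ) y ^ 2
        rw [henr, hmassr, ← mul_div_assoc]
        exact div_le_div_of_nonneg_right h1 hm.le)
    rw [hfr] at hcount
    exact hcount

end ExtSetAux

open ExtSetAux in
/-- **The decomposition theorem for sets**, for the label-extended graphs of all unique games. -/
theorem upper_set_ext {V ι : Type} [Fintype V] [DecidableEq V] [Fintype ι] (s t : ι → V)
    (w : ι → ℝ) (hw : ∀ e, 0 ≤ w e) (hw1 : ∑ e, w e = 1) {κ : ℝ} (hκ : 0 < κ) :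
    ∃ (N : ℕ) (P : V → Fin N), (∑ e, if P (s e) = P (t e) then 0 else w e) ≤ κ ∧
      ∀ (L : Type) [Fintype L] [DecidableEq L] (g : ι → Equiv.Perm L) (i : Fin N) (x : ℝ),
        0 < x → ∀ F : Submodule ℝ (V × L → ℝ),
        IsSlow (extS s) (extT t g) (extW w) (fun y => if P y.1 = i then 1 else 0) (x * κ ^ 2) F →
        (Module.finrank ℝ F : ℝ) ≤ Fintype.card L * (Fintype.card V : ℝ) ^ (4 * √x) := by
  classical
  have hp0 : ∀ x, 0 ≤ density s t w x := density_nonneg s t hw
  have hp1 : ∑ x, density s t w x = 1 := by rw [density_sum, hw1]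
  have hVne : Nonempty V := by
    by_contra hne
    rw [not_nonempty_iff] at hne
    have : ∑ x, density s t w x = 0 := by rw [Finset.univ_eq_empty, Finset.sum_empty]
    rw [hp1] at this
    exact one_ne_zero this
  have hfin : ∀ (L : Type) [Fintype L] (F : Submodule ℝ (V × L → ℝ)),
      (Module.finrank ℝ F : ℝ) ≤ Fintype.card L * Fintype.card V := by
    intro L _ F
    have h1 := Submodule.finrank_le F
    rw [Module.finrank_fintype_fun_eq_card, Fintype.card_prod, mul_comm] at h1
    exact_mod_cast h1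
  set n : ℝ := (Fintype.card V : ℝ) with hn
  have hn1 : 1 ≤ n := by
    rw [hn]
    exact_mod_cast Fintype.card_pos
  have hn0 : 0 < n := by linarith
  rcases hn1.eq_or_lt with h1 | h1
  · refine ⟨1, fun _ => 0, ?_, ?_⟩
    · simp
      exact hκ.le
    · intro L _ _ g i x _ F _
      have h2 := hfin L F
      rw [← h1] at h2
      rw [← h1, Real.one_rpow]
      exact h2
  · have hlog : 0 < Real.log n := Real.log_pos h1
    set lam : ℝ := 2 * κ / Real.log n with hlam
    have hlam0 : 0 < lam := by positivity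
    obtain ⟨P, hcut, hiso⟩ := exists_opt s t hw hp0 hlam0.le
    have hind : ∀ (c : Fin (Fintype.card V + 1)) x,
        ind (cls P c) x = if P x = c then (1 : ℝ) else 0 := by
      intro c x
      by_cases h : P x = c
      · rw [if_pos h, ind_of_mem ((mem_cls P c x).2 h)]
      · rw [if_neg h, ind_of_not_mem fun h' => h ((mem_cls P c x).1 h')]
    refine ⟨Fintype.card V + 1, P, ?_, ?_⟩
    · rw [hp1, one_mul, ← hn] at hcut
      have h3 : lam * Real.log n = 2 * κ := by
        rw [hlam]; field_simp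
      rw [h3] at hcut
      have h4 : ∑ c, Pool.Agent.Lib.P325s.cutEn s t w (ind (cls P c)) =
          2 * ∑ e, (if P (s e) = P (t e) then 0 else w e) := by
        unfold Pool.Agent.Lib.P325s.cutEn
        rw [Finset.sum_comm, Finset.mul_sum]
        refine Finset.sum_congr rfl fun e _ => ?_
        have h5 : ∀ c, w e * (√(ind (cls P c) (s e)) - √(ind (cls P c) (t e))) ^ 2 =
            w e * ((if P (s e) = c then (1 : ℝ) else 0) +
              (if P (t e) = c then (1 : ℝ) else 0) -
              2 * (if P (s e) = c then (if P (t e) = c then (1 : ℝ) else 0) else 0)) := by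
          intro c
          rw [hind, hind]
          split_ifs <;> norm_num
        rw [Finset.sum_congr rfl fun c _ => h5 c, ← Finset.mul_sum, Finset.sum_sub_distrib,
          Finset.sum_add_distrib, ← Finset.mul_sum, Finset.sum_ite_eq, Finset.sum_ite_eq,
          Finset.sum_ite_eq]
        simp only [Finset.mem_univ, if_true]
        by_cases h6 : P (s e) = P (t e)
        · rw [if_pos h6, if_pos h6.symm]
          ring
        · rw [if_neg h6, if_neg (Ne.symm h6)]
          ring
      rw [h4] at hcut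
      linarith
    · intro L _ _ g c x hx0 F hF
      have hsx : 0 < √x := Real.sqrt_pos.2 hx0
      set T0 : ℝ := Real.log n / (√x * κ ^ 2) with hT0
      have hT00 : 0 < T0 := by positivity
      have hWp : ∀ e, w e ≠ 0 → 0 < density s t w (s e) ∧ 0 < density s t w (t e) := by
        intro e he
        have he' : 0 < w e := lt_of_le_of_ne (hw e) (Ne.symm he)
        exact ⟨density_pos s t hw he' (Or.inl rfl), density_pos s t hw he' (Or.inr rfl)⟩
      have h2 := part_count_lift_sq g s t w hw (density s t w) hp0 hWp (ind (cls P c))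
        (ind_nonneg _) (lam ^ 2 / 16) (by positivity)
        (fun g hg hg1 => nash_set s t hw hlam0.le (hiso c) g hg hg1)
        (η := x * κ ^ 2) hT00 F (by
          intro f hf hne
          have h3 := hF f hf hne
          rw [mass_ext s t w g (fun v => if P v = c then (1 : ℝ) else 0) f,
            energy_ext s t w g (fun v => if P v = c then (1 : ℝ) else 0) f] at h3
          simp only [hind]
          exact h3)
      refine h2.trans (le_of_eq ?_)
      rw [Real.rpow_def_of_pos hn0]
      congr 2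
      have hxx : x = √x * √x := (Real.mul_self_sqrt hx0.le).symm
      rw [hT0, hlam]
      set y : ℝ := √x with hy
      rw [hxx]
      field_simp
      ring

end Pool.Agent.Lib.P325q
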