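import Mathlib

/-!
Auxiliary definitions for the proofs of the package P325q.
-/

open scoped BigOperators

namespace Pool.Agent.Lib.P325q

/-- the sign of a bit -/
def sg (c : Bool) : ℝ := if c then 1 else -1

theorem sg_sq (c : Bool) : sg c ^ 2 = 1 := by
  unfold sg; split_ifs <;> norm_num

theorem sg_mul_self (c : Bool) : sg c * sg c = 1 := by
  unfold sg; split_ifs <;> norm_num

/-- Mass times the relative entropy of `φ / mass` with respect to the uniform distribution. -/
noncomputable def kl {X : Type} [Fintype X] (φ : X → ℝ) : ℝ :=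
  ∑ y, φ y * Real.log (φ y) - (∑ y, φ y) * Real.log (∑ y, φ y) +
    (∑ y, φ y) * Real.log (Fintype.card X)

end Pool.Agent.Lib.P325q
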