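import Pool.Agent.Lib.P325q.Base

/-!
P325q.KL: elementary properties of the unnormalised relative entropy `kl`.

PROOF. `gibbs`: `Z = ∑ exp (f y) > 0`, `M = ∑ φ`. If `M = 0` all `φ y = 0` and both sides are `0`.
Otherwise `∑ φ y * (f y - log (φ y) + log M - log Z) ≤ ∑_{φ y > 0} φ y * (M * exp (f y) / (Z * φ y) - 1)
≤ M - M = 0` (`Real.log_le_sub_one_of_pos`). `kl_nonneg`: `gibbs` with `f = 0`.
`kl_equiv`: `Equiv.sum_comp`, `Fintype.card_congr`. `kl_prod` (chain rule): expand, `Fintype.sum_prod_type`,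
`log (|X| * |Y|) = log |X| + log |Y|`; an exact identity (all `log (∑ y, φ (x, y))` terms cancel).
`kl_smul`: `log (c * a) = log c + log a` for `a ≠ 0`; homogeneity.
-/

open scoped BigOperators

namespace Pool.Agent.Lib.P325q

theorem gibbs {X : Type} [Fintype X] [Nonempty X] (φ f : X → ℝ) (hφ : ∀ y, 0 ≤ φ y) :
    ∑ y, φ y * f y ≤ kl φ + (∑ y, φ y) *
      (Real.log (∑ y, Real.exp (f y)) - Real.log (Fintype.card X)) := by
  set M := ∑ y, φ y with hM
  set Z := ∑ y, Real.exp (f y) with hZ
  have hZpos : 0 < Z := Finset.sum_pos (fun y _ => Real.exp_pos _) Finset.univ_nonempty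
  have hM0 : 0 ≤ M := Finset.sum_nonneg fun y _ => hφ y
  have key : ∀ y, φ y * (f y - Real.log (φ y) + Real.log M - Real.log Z) ≤
      M * Real.exp (f y) / Z - φ y := by
    intro y
    rcases (hφ y).eq_or_lt with h | h
    · rw [← h, zero_mul, sub_zero]
      exact div_nonneg (mul_nonneg hM0 (Real.exp_pos _).le) hZpos.le
    · have hMpos : 0 < M := lt_of_lt_of_le h
        (Finset.single_le_sum (f := φ) (fun z _ => hφ z) (Finset.mem_univ y))
      have hpos : 0 < M * Real.exp (f y) / (Z * φ y) :=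
        div_pos (mul_pos hMpos (Real.exp_pos _)) (mul_pos hZpos h)
      have h1 := Real.log_le_sub_one_of_pos hpos
      rw [Real.log_div (mul_pos hMpos (Real.exp_pos _)).ne' (mul_pos hZpos h).ne',
        Real.log_mul hMpos.ne' (Real.exp_pos _).ne', Real.log_exp,
        Real.log_mul hZpos.ne' h.ne'] at h1
      have h2 := mul_le_mul_of_nonneg_left h1 h.le
      have h3 : φ y * (M * Real.exp (f y) / (Z * φ y) - 1) = M * Real.exp (f y) / Z - φ y := by
        field_simp
      rw [h3] at h2
      refine le_trans (le_of_eq ?_) h2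
      ring
  have hsum := Finset.sum_le_sum fun y (_ : y ∈ Finset.univ) => key y
  have hR : ∑ y, (M * Real.exp (f y) / Z - φ y) = 0 := by
    rw [Finset.sum_sub_distrib, ← hM]
    have h1 : ∑ y, M * Real.exp (f y) / Z = M := by
      rw [← Finset.sum_div, ← Finset.mul_sum, ← hZ, mul_div_assoc, div_self hZpos.ne', mul_one]
    rw [h1, sub_self]
  have hL : ∑ y, φ y * (f y - Real.log (φ y) + Real.log M - Real.log Z) =
      ∑ y, φ y * f y - ∑ y, φ y * Real.log (φ y) + M * Real.log M - M * Real.log Z := by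
    have h1 : ∀ y, φ y * (f y - Real.log (φ y) + Real.log M - Real.log Z) =
        φ y * f y - φ y * Real.log (φ y) + φ y * Real.log M - φ y * Real.log Z := fun y => by ring
    rw [Finset.sum_congr rfl fun y _ => h1 y, Finset.sum_sub_distrib, Finset.sum_add_distrib,
      Finset.sum_sub_distrib, ← Finset.sum_mul, ← Finset.sum_mul]
  rw [hR, hL] at hsum
  unfold kl
  rw [← hM]
  nlinarith [hsum]

theorem kl_nonneg {X : Type} [Fintype X] [Nonempty X] (φ : X → ℝ) (hφ : ∀ y, 0 ≤ φ y) :
    0 ≤ kl φ := by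
  have h := gibbs φ (fun _ => 0) hφ
  simp only [mul_zero, Finset.sum_const_zero, Real.exp_zero, Finset.sum_const, Finset.card_univ,
    nsmul_eq_mul, mul_one, sub_self, add_zero] at h
  exact h

theorem kl_equiv {X Y : Type} [Fintype X] [Fintype Y] (e : X ≃ Y) (φ : Y → ℝ) :
    kl (fun x => φ (e x)) = kl φ := by
  unfold kl
  rw [Equiv.sum_comp e (fun y => φ y * Real.log (φ y)), Equiv.sum_comp e φ, Fintype.card_congr e]

theorem kl_prod {X Y : Type} [Fintype X] [Fintype Y] [Nonempty X] [Nonempty Y] (φ : X × Y → ℝ) :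
    kl φ = kl (fun x => ∑ y, φ (x, y)) + ∑ x, kl (fun y => φ (x, y)) := by
  unfold kl
  have hX : (Fintype.card X : ℝ) ≠ 0 := Nat.cast_ne_zero.2 Fintype.card_ne_zero
  have hY : (Fintype.card Y : ℝ) ≠ 0 := Nat.cast_ne_zero.2 Fintype.card_ne_zero
  rw [Fintype.card_prod, Nat.cast_mul, Real.log_mul hX hY, Fintype.sum_prod_type,
    Fintype.sum_prod_type, Finset.sum_add_distrib, Finset.sum_sub_distrib, ← Finset.sum_mul]
  ring

theorem kl_smul {X : Type} [Fintype X] (φ : X → ℝ) {c : ℝ} (hc : 0 ≤ c) :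
    kl (fun x => c * φ x) = c * kl φ := by
  rcases hc.eq_or_lt with h | h
  · subst h
    unfold kl
    simp
  · have key : ∀ a : ℝ, c * a * Real.log (c * a) = c * a * Real.log c + c * (a * Real.log a) := by
      intro a
      rcases eq_or_ne a 0 with ha | ha
      · subst ha
        simp
      · rw [Real.log_mul h.ne' ha]
        ring
    unfold kl
    rw [← Finset.mul_sum, key, Finset.sum_congr rfl fun y _ => key (φ y), Finset.sum_add_distrib,
      ← Finset.sum_mul, ← Finset.mul_sum, ← Finset.mul_sum]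
    ring

end Pool.Agent.Lib.P325q
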