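import Pool.Agent.Lib.P325q.Spec
import Pool.Agent.Lib.P325q.Rad
import Pool.Agent.Lib.P325q.KL

/-!
P325q.Block: one block.  `φ` is an unnormalised measure on `Ω`, `y` a subgaussian vector with `|y|² = B`; `P` is
the projection on the eigenvectors of the second moment matrix with eigenvalue above `C`.

PROOF. If `W = ∑ φ = 0` then `φ = 0`; take `P = 0` (`kl 0 = 0`). Otherwise let
`M x z = (∑ ω, φ ω * (y ω x * y ω z)) / W`, `spectral` gives `u`, `lam`;
`A = {k | C < lam k}`, `P x z = ∑ k ∈ A, u k x * u k z`.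
Symmetric and idempotent: orthonormality of the `u k`.
(A) `∑ x, a x * (y ω x - ∑ z, P x z * y ω z) = ∑ x, a' x * y ω x` with
`a' x = a x - ∑ z, P x z * a z = ∑ k ∉ A, <u k, a> u k x`; so the sum over `ω` is `W * ∑ x z, a' x * a' z * M x z`
`= W * ∑ k ∉ A, lam k * <u k, a>² ≤ W * C * ∑ k, <u k, a>² = W * C * ∑ x, a x ^ 2` (completeness).
(B) `|P y|² = ∑ k ∈ A, <u k, y>²`. `gibbs` with `f ω = (1/4) * |P y|²` and `rademacher` (`s = 0`):
`∑ φ ω * f ω ≤ kl φ + W * (log (n √2^|A|) - log n) = kl φ + W * |A| * (log 2) / 2`, `n = |Ω|`; times `4`.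
`|A| * C ≤ ∑ k ∈ A, lam k ≤ ∑ k, lam k = ∑ x, M x x = B`: all `lam k ≥ 0` because
`lam k = ∑ x z, u k x * M x z * u k z = (∑ ω, φ ω * <u k, y>²) / W ≥ 0`. So `|A| ≤ B / C`.
-/

open scoped BigOperators

namespace Pool.Agent.Lib.P325q

namespace BlockAux

open Real MeasureTheory Finset

/-- exponential moments of the squared length of a projection of a subgaussian vector -/
theorem hs_shift {Ω T : Type} [Fintype Ω] [Fintype T] [DecidableEq T]
    (y : Ω → T → ℝ)
    (hs : ∀ s : T → ℝ, ∑ ω, Real.exp (∑ x, s x * y ω x) ≤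
      Fintype.card Ω * Real.exp (1 / 2 * ∑ x, s x ^ 2))
    (u : T → T → ℝ) (hu : ∀ k l, ∑ x, u k x * u l x = if k = l then 1 else 0) (A : Finset T) :
    ∀ c : T → ℝ, ∑ ω, exp ((∑ k ∈ A, (∑ x, u k x * y ω x) ^ 2) / 4 + ∑ x, c x * y ω x) ≤
      Fintype.card Ω * (√2 ^ A.card *
        exp ((∑ x, c x ^ 2) / 2 + (∑ k ∈ A, (∑ x, u k x * c x) ^ 2) / 2)) := by
  classical
  induction A using Finset.induction_on with
  | empty =>
    intro c
    have h := hs c
    simp only [sum_empty, card_empty, pow_zero, one_mul, zero_div, zero_add, add_zero]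
    rw [show (∑ x, c x ^ 2) / 2 = 1 / 2 * ∑ x, c x ^ 2 by ring]
    exact h
  | insert m A hm ih =>
    intro c
    set v : T → ℝ := u m with hv
    have hvv : ∑ x, v x ^ 2 = 1 := by
      have h := hu m m
      rw [if_pos rfl] at h
      rw [← h]
      exact Finset.sum_congr rfl fun i _ => by rw [hv]; ring
    have hvu : ∀ k ∈ A, ∑ x, u k x * v x = 0 := by
      intro k hk
      have h := hu k m
      rw [if_neg (fun e => hm (by rw [← e]; exact hk))] at h
      exact h
    set s : ℝ := ∑ x, v x * c x with hsdef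
    have hHS : ∀ z : ℝ, exp (z ^ 2 / 4) = (√π)⁻¹ * ∫ t : ℝ, exp (-1 * t ^ 2 + z * t) := by
      intro z
      rw [(_root_.P325q.gauss_int one_pos z).2, div_one, mul_one]
      rw [← mul_assoc, inv_mul_cancel₀ (by positivity), one_mul]
    have hadd : ∀ (t : ℝ) (ω : Ω), ∑ x, (c x + t * v x) * y ω x =
        ∑ x, c x * y ω x + t * ∑ x, v x * y ω x := by
      intro t ω
      rw [Finset.mul_sum, ← Finset.sum_add_distrib]
      exact Finset.sum_congr rfl fun i _ => by ring
    have hsum : ∀ ω : Ω, (∑ k ∈ insert m A, (∑ x, u k x * y ω x) ^ 2) / 4 + ∑ x, c x * y ω x =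
        ((∑ k ∈ A, (∑ x, u k x * y ω x) ^ 2) / 4 + ∑ x, c x * y ω x) +
          (∑ x, v x * y ω x) ^ 2 / 4 := by
      intro ω
      rw [Finset.sum_insert hm]
      ring
    have h2 : ∀ ω : Ω, exp ((∑ k ∈ insert m A, (∑ x, u k x * y ω x) ^ 2) / 4 +
        ∑ x, c x * y ω x) = (√π)⁻¹ * ∫ t : ℝ, exp (-1 * t ^ 2) *
          exp ((∑ k ∈ A, (∑ x, u k x * y ω x) ^ 2) / 4 + ∑ x, (c x + t * v x) * y ω x) := by
      intro ω
      rw [hsum ω, exp_add, hHS (∑ x, v x * y ω x), mul_left_comm, ← integral_const_mul]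
      congr 1
      refine integral_congr_ae (Filter.Eventually.of_forall fun t => ?_)
      simp only
      rw [← exp_add, ← exp_add, hadd]
      congr 1
      ring
    have h1 : ∑ ω, exp ((∑ k ∈ insert m A, (∑ x, u k x * y ω x) ^ 2) / 4 + ∑ x, c x * y ω x) =
        (√π)⁻¹ * ∫ t : ℝ, exp (-1 * t ^ 2) *
          ∑ ω, exp ((∑ k ∈ A, (∑ x, u k x * y ω x) ^ 2) / 4 + ∑ x, (c x + t * v x) * y ω x) := by
      rw [Finset.sum_congr rfl fun ω _ => h2 ω, ← Finset.mul_sum, ← integral_finsetSum]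
      · congr 1
        refine integral_congr_ae (Filter.Eventually.of_forall fun t => ?_)
        simp only
        rw [Finset.mul_sum]
      · intro ω _
        have h3 := ((_root_.P325q.gauss_int one_pos (∑ x, v x * y ω x)).1).const_mul
          (exp ((∑ k ∈ A, (∑ x, u k x * y ω x) ^ 2) / 4 + ∑ x, c x * y ω x))
        refine h3.congr (Filter.Eventually.of_forall fun t => ?_)
        simp only
        rw [← exp_add, ← exp_add, hadd]
        congr 1
        ring
    rw [h1]
    set E : ℝ := (∑ x, c x ^ 2) / 2 + (∑ k ∈ A, (∑ x, u k x * c x) ^ 2) / 2 with hE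
    have hb : ∀ t : ℝ, exp (-1 * t ^ 2) *
          ∑ ω, exp ((∑ k ∈ A, (∑ x, u k x * y ω x) ^ 2) / 4 + ∑ x, (c x + t * v x) * y ω x) ≤
        (Fintype.card Ω * √2 ^ A.card * exp E) * exp (-(1 / 2) * t ^ 2 + s * t) := by
      intro t
      have h4 := ih (fun x => c x + t * v x)
      have h5 : (∑ x, (c x + t * v x) ^ 2) / 2 +
          (∑ k ∈ A, (∑ x, u k x * (c x + t * v x)) ^ 2) / 2 = E + (t ^ 2 / 2 + s * t) := by
        have e1 : ∑ x, (c x + t * v x) ^ 2 = ∑ x, c x ^ 2 + 2 * t * s + t ^ 2 := by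
          have : ∀ x, (c x + t * v x) ^ 2 = c x ^ 2 + 2 * t * (v x * c x) + t ^ 2 * v x ^ 2 := by
            intro i; ring
          rw [Finset.sum_congr rfl fun i _ => this i, Finset.sum_add_distrib,
            Finset.sum_add_distrib, ← Finset.mul_sum, ← Finset.mul_sum, hvv, ← hsdef]
          ring
        have e2 : ∀ k ∈ A, (∑ x, u k x * (c x + t * v x)) ^ 2 = (∑ x, u k x * c x) ^ 2 := by
          intro k hk
          have : ∀ x, u k x * (c x + t * v x) = u k x * c x + t * (u k x * v x) := by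
            intro i; ring
          rw [Finset.sum_congr rfl fun i _ => this i, Finset.sum_add_distrib, ← Finset.mul_sum,
            hvu k hk]
          ring
        rw [Finset.sum_congr rfl e2, e1, hE]
        ring
      rw [h5] at h4
      calc exp (-1 * t ^ 2) *
            ∑ ω, exp ((∑ k ∈ A, (∑ x, u k x * y ω x) ^ 2) / 4 + ∑ x, (c x + t * v x) * y ω x)
          ≤ exp (-1 * t ^ 2) *
              (Fintype.card Ω * (√2 ^ A.card * exp (E + (t ^ 2 / 2 + s * t)))) :=
            mul_le_mul_of_nonneg_left h4 (exp_pos _).le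
        _ = (Fintype.card Ω * √2 ^ A.card * exp E) * exp (-(1 / 2) * t ^ 2 + s * t) := by
            rw [exp_add E]
            have : exp (-(1 / 2) * t ^ 2 + s * t) =
                exp (-1 * t ^ 2) * exp (t ^ 2 / 2 + s * t) := by
              rw [← exp_add]; congr 1; ring
            rw [this]
            ring
    have hint : Integrable (fun t : ℝ =>
        (Fintype.card Ω * √2 ^ A.card * exp E) * exp (-(1 / 2) * t ^ 2 + s * t)) :=
      ((_root_.P325q.gauss_int (by norm_num : (0 : ℝ) < 1 / 2) s).1).const_mul _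
    have h6 : ∫ t : ℝ, exp (-1 * t ^ 2) *
          ∑ ω, exp ((∑ k ∈ A, (∑ x, u k x * y ω x) ^ 2) / 4 + ∑ x, (c x + t * v x) * y ω x) ≤
        ∫ t : ℝ, (Fintype.card Ω * √2 ^ A.card * exp E) *
          exp (-(1 / 2) * t ^ 2 + s * t) := by
      refine integral_mono_of_nonneg (Filter.Eventually.of_forall fun t => ?_) hint
        (Filter.Eventually.of_forall hb)
      exact mul_nonneg (exp_pos _).le (Finset.sum_nonneg fun y _ => (exp_pos _).le)
    have h7 : ∫ t : ℝ, (Fintype.card Ω * √2 ^ A.card * exp E) *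
          exp (-(1 / 2) * t ^ 2 + s * t) =
        (Fintype.card Ω * √2 ^ A.card * exp E) * (√(2 * π) * exp (s ^ 2 / 2)) := by
      rw [integral_const_mul, (_root_.P325q.gauss_int (by norm_num : (0 : ℝ) < 1 / 2) s).2]
      congr 2
      · congr 1; ring
      · congr 1; ring
    have h8 : (√π)⁻¹ * √(2 * π) = √2 := by
      rw [Real.sqrt_mul (by norm_num)]
      field_simp
    have h9 : (∑ x, c x ^ 2) / 2 + (∑ k ∈ insert m A, (∑ x, u k x * c x) ^ 2) / 2 =
        E + s ^ 2 / 2 := by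
      rw [Finset.sum_insert hm, hE]
      ring
    calc (√π)⁻¹ * ∫ t : ℝ, exp (-1 * t ^ 2) *
          ∑ ω, exp ((∑ k ∈ A, (∑ x, u k x * y ω x) ^ 2) / 4 + ∑ x, (c x + t * v x) * y ω x)
        ≤ (√π)⁻¹ * ((Fintype.card Ω * √2 ^ A.card * exp E) * (√(2 * π) * exp (s ^ 2 / 2))) := by
          rw [← h7]
          exact mul_le_mul_of_nonneg_left h6 (by positivity)
      _ = Fintype.card Ω * (√2 ^ (insert m A).card * exp ((∑ x, c x ^ 2) / 2 +
            (∑ k ∈ insert m A, (∑ x, u k x * c x) ^ 2) / 2)) := by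
          rw [h9, exp_add E, Finset.card_insert_of_notMem hm]
          calc (√π)⁻¹ * ((Fintype.card Ω * √2 ^ A.card * exp E) * (√(2 * π) * exp (s ^ 2 / 2)))
              = ((√π)⁻¹ * √(2 * π)) *
                  (Fintype.card Ω * √2 ^ A.card * exp E * exp (s ^ 2 / 2)) := by ring
            _ = _ := by rw [h8]; ring

theorem quad {Ω T : Type} [Fintype Ω] [Fintype T] (y : Ω → T → ℝ) (φ : Ω → ℝ) (W : ℝ)
    (f : T → ℝ) : ∑ x, ∑ z, f x * ((∑ ω, φ ω * (y ω x * y ω z)) / W) * f z =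
      (∑ ω, φ ω * (∑ x, f x * y ω x) ^ 2) / W := by
  have h1 : ∀ ω, φ ω * (∑ x, f x * y ω x) ^ 2 =
      ∑ x, ∑ z, φ ω * (f x * y ω x * (f z * y ω z)) := by
    intro ω
    rw [sq, Finset.sum_mul_sum, Finset.mul_sum]
    refine Finset.sum_congr rfl fun x _ => ?_
    rw [Finset.mul_sum]
  have h2 : ∑ ω, φ ω * (∑ x, f x * y ω x) ^ 2 =
      ∑ x, ∑ z, ∑ ω, φ ω * (f x * y ω x * (f z * y ω z)) := by
    rw [Finset.sum_congr rfl fun ω _ => h1 ω, Finset.sum_comm]
    refine Finset.sum_congr rfl fun x _ => ?_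
    rw [Finset.sum_comm]
  rw [h2, Finset.sum_div]
  refine Finset.sum_congr rfl fun x _ => ?_
  rw [Finset.sum_div]
  refine Finset.sum_congr rfl fun z _ => ?_
  rw [mul_div_assoc', div_mul_eq_mul_div, Finset.mul_sum, Finset.sum_mul]
  congr 1
  exact Finset.sum_congr rfl fun ω _ => by ring

end BlockAux

open BlockAux

theorem one_block {Ω T : Type} [Fintype Ω] [Nonempty Ω] [Fintype T] [DecidableEq T]
    (y : Ω → T → ℝ) {B : ℝ} (hy : ∀ ω, ∑ x, y ω x ^ 2 = B)
    (hs : ∀ s : T → ℝ, ∑ ω, Real.exp (∑ x, s x * y ω x) ≤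
      Fintype.card Ω * Real.exp (1 / 2 * ∑ x, s x ^ 2))
    {C : ℝ} (hC : 0 < C) (φ : Ω → ℝ) (hφ : ∀ ω, 0 ≤ φ ω) :
    ∃ P : T → T → ℝ, (∀ x z, P x z = P z x) ∧
      (∀ x z, ∑ x', P x x' * P x' z = P x z) ∧
      (∀ a : T → ℝ, ∑ ω, φ ω * (∑ x, a x * (y ω x - ∑ z, P x z * y ω z)) ^ 2 ≤
        C * (∑ x, a x ^ 2) * ∑ ω, φ ω) ∧
      ∑ ω, φ ω * ∑ x, (∑ z, P x z * y ω z) ^ 2 ≤
        4 * kl φ + 2 * Real.log 2 * (B / C) * ∑ ω, φ ω := by
  classical
  have hW0 : 0 ≤ ∑ ω, φ ω := Finset.sum_nonneg fun ω _ => hφ ω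
  rcases hW0.eq_or_lt with hW | hW
  · have h0 : ∀ ω, φ ω = 0 := fun ω =>
      (Finset.sum_eq_zero_iff_of_nonneg fun ω _ => hφ ω).1 hW.symm ω (Finset.mem_univ ω)
    refine ⟨fun _ _ => 0, fun _ _ => rfl, fun _ _ => by simp, fun a => ?_, ?_⟩
    · simp only [h0, zero_mul, Finset.sum_const_zero, mul_zero, le_refl]
    · rw [← hW]
      simp only [h0, zero_mul, Finset.sum_const_zero, mul_zero, add_zero]
      have := kl_nonneg φ hφ
      linarith
  set W : ℝ := ∑ ω, φ ω with hWdef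
  obtain ⟨u, lam, hu, hcomp, -, hquad⟩ := _root_.P325q.spectral
    (Matrix.of fun x z => (∑ ω, φ ω * (y ω x * y ω z)) / W) (by
      ext x z
      simp only [Matrix.transpose_apply, Matrix.of_apply]
      congr 1
      exact Finset.sum_congr rfl fun ω _ => by ring)
  have hq : ∀ f : T → ℝ, (∑ ω, φ ω * (∑ x, f x * y ω x) ^ 2) / W =
      ∑ k, lam k * (∑ x, u k x * f x) ^ 2 := by
    intro f
    rw [← hquad f, ← quad y φ W f]
    rfl
  set A : Finset T := Finset.univ.filter fun k => C < lam k with hA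
  have hP1 : ∀ (x : T) (f : T → ℝ), ∑ z, (∑ k ∈ A, u k x * u k z) * f z =
      ∑ k ∈ A, u k x * ∑ z, u k z * f z := by
    intro x f
    simp only [Finset.sum_mul, Finset.mul_sum]
    rw [Finset.sum_comm]
    exact Finset.sum_congr rfl fun k _ => Finset.sum_congr rfl fun z _ => by ring
  have hP2 : ∀ (l : T) (c : T → ℝ), ∑ x, u l x * ∑ k ∈ A, u k x * c k =
      if l ∈ A then c l else 0 := by
    intro l c
    have e1 : ∑ x, u l x * ∑ k ∈ A, u k x * c k = ∑ k ∈ A, (∑ x, u l x * u k x) * c k := by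
      simp only [Finset.sum_mul, Finset.mul_sum]
      rw [Finset.sum_comm]
      exact Finset.sum_congr rfl fun k _ => Finset.sum_congr rfl fun z _ => by ring
    rw [e1]
    simp only [hu, ite_mul, one_mul, zero_mul]
    rw [Finset.sum_ite_eq A l c]
  have hP3 : ∀ c : T → ℝ, ∑ x, (∑ k ∈ A, u k x * c k) ^ 2 = ∑ k ∈ A, c k ^ 2 := by
    intro c
    have e1 : ∀ x, (∑ k ∈ A, u k x * c k) ^ 2 =
        ∑ l ∈ A, c l * (u l x * ∑ k ∈ A, u k x * c k) := by
      intro x
      rw [sq]
      conv_lhs => rw [Finset.sum_mul]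
      exact Finset.sum_congr rfl fun l _ => by ring
    rw [Finset.sum_congr rfl fun x _ => e1 x, Finset.sum_comm]
    refine Finset.sum_congr rfl fun l hl => ?_
    rw [← Finset.mul_sum, hP2 l c, if_pos hl]
    ring
  refine ⟨fun x z => ∑ k ∈ A, u k x * u k z, ?_, ?_, ?_, ?_⟩
  · intro x z
    exact Finset.sum_congr rfl fun k _ => mul_comm _ _
  · intro x z
    have e1 := hP1 x (fun x' => ∑ k ∈ A, u k x' * u k z)
    simp only at e1 ⊢
    rw [e1]
    refine Finset.sum_congr rfl fun k hk => ?_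
    rw [hP2 k (fun l => u l z), if_pos hk]
  · intro a
    set a' : T → ℝ := fun x => a x - ∑ k ∈ A, u k x * ∑ z, u k z * a z with ha'
    have e1 : ∀ ω, ∑ x, a x * (y ω x - ∑ z, (∑ k ∈ A, u k x * u k z) * y ω z) =
        ∑ x, a' x * y ω x := by
      intro ω
      simp only [hP1, ha', mul_sub, sub_mul, Finset.sum_sub_distrib]
      congr 1
      simp only [Finset.mul_sum, Finset.sum_mul]
      rw [Finset.sum_comm]
      conv_rhs => rw [Finset.sum_comm]
      refine Finset.sum_congr rfl fun k _ => ?_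
      rw [Finset.sum_comm]
      exact Finset.sum_congr rfl fun x _ => Finset.sum_congr rfl fun z _ => by ring
    simp only [e1]
    have e2 : ∀ k, ∑ x, u k x * a' x = if k ∈ A then 0 else ∑ x, u k x * a x := by
      intro k
      simp only [ha', mul_sub, Finset.sum_sub_distrib]
      rw [hP2 k (fun l => ∑ z, u l z * a z)]
      split_ifs
      · ring
      · ring
    have e3 : ∑ ω, φ ω * (∑ x, a' x * y ω x) ^ 2 = W * ∑ k, lam k * (∑ x, u k x * a' x) ^ 2 := by
      rw [← hq a']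
      field_simp
    have e4 : ∑ k, lam k * (∑ x, u k x * a' x) ^ 2 ≤ C * ∑ x, a x ^ 2 := by
      rw [← hcomp a, Finset.mul_sum]
      refine Finset.sum_le_sum fun k _ => ?_
      rw [e2]
      split_ifs with hk
      · simp only [ne_eq, OfNat.ofNat_ne_zero, not_false_eq_true, zero_pow, mul_zero]
        positivity
      · have h1 : lam k ≤ C := by
          rw [hA, Finset.mem_filter] at hk
          push Not at hk
          exact hk (Finset.mem_univ k)
        exact mul_le_mul_of_nonneg_right h1 (sq_nonneg _)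
    rw [e3]
    calc W * ∑ k, lam k * (∑ x, u k x * a' x) ^ 2 ≤ W * (C * ∑ x, a x ^ 2) :=
          mul_le_mul_of_nonneg_left e4 hW.le
      _ = C * (∑ x, a x ^ 2) * W := by ring
  · have e1 : ∀ ω, ∑ x, (∑ z, (∑ k ∈ A, u k x * u k z) * y ω z) ^ 2 =
        ∑ k ∈ A, (∑ z, u k z * y ω z) ^ 2 := by
      intro ω
      simp only [hP1]
      exact hP3 _
    simp only [e1]
    have e2 := gibbs φ (fun ω => (∑ k ∈ A, (∑ z, u k z * y ω z) ^ 2) / 4) hφ
    have e3 := hs_shift y hs u hu A (fun _ => 0)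
    have hn : (0 : ℝ) < Fintype.card Ω := by exact_mod_cast Fintype.card_pos
    have e4 : ∑ ω, Real.exp ((∑ k ∈ A, (∑ z, u k z * y ω z) ^ 2) / 4) ≤
        Fintype.card Ω * √2 ^ A.card := by
      simpa using e3
    have e5 : Real.log (∑ ω, Real.exp ((∑ k ∈ A, (∑ z, u k z * y ω z) ^ 2) / 4)) -
        Real.log (Fintype.card Ω) ≤ A.card * (Real.log 2 / 2) := by
      have h1 : 0 < ∑ ω, Real.exp ((∑ k ∈ A, (∑ z, u k z * y ω z) ^ 2) / 4) :=
        Finset.sum_pos (fun ω _ => Real.exp_pos _) Finset.univ_nonempty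
      have h2 := Real.log_le_log h1 e4
      rw [Real.log_mul hn.ne' (by positivity), Real.log_pow, Real.log_sqrt (by norm_num)] at h2
      linarith
    have hlam : ∀ k, 0 ≤ lam k := by
      intro k
      have h1 := hq (u k)
      have h2 : ∑ l, lam l * (∑ x, u l x * u k x) ^ 2 = lam k := by
        simp only [hu]
        rw [Finset.sum_eq_single k]
        · simp
        · intro l _ hl
          rw [if_neg hl]
          simp
        · intro h
          exact absurd (Finset.mem_univ k) h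
      rw [h2] at h1
      rw [← h1]
      exact div_nonneg (Finset.sum_nonneg fun ω _ => mul_nonneg (hφ ω) (sq_nonneg _)) hW.le
    have htr : ∑ k, lam k = B := by
      have h1 : ∀ x : T, (∑ ω, φ ω * y ω x ^ 2) / W = ∑ k, lam k * u k x ^ 2 := by
        intro x
        have h2 := hq (fun z => if z = x then 1 else 0)
        simpa using h2
      have h3 : ∑ x : T, (∑ ω, φ ω * y ω x ^ 2) / W = B := by
        rw [← Finset.sum_div, Finset.sum_comm]
        simp only [← Finset.mul_sum, hy]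
        rw [← Finset.sum_mul, ← hWdef]
        field_simp
      rw [Finset.sum_congr rfl fun x _ => h1 x, Finset.sum_comm] at h3
      simp only [← Finset.mul_sum] at h3
      rw [← h3]
      refine Finset.sum_congr rfl fun k _ => ?_
      have h4 := hu k k
      rw [if_pos rfl] at h4
      rw [show ∑ x, u k x ^ 2 = ∑ x, u k x * u k x from
        Finset.sum_congr rfl fun x _ => sq _, h4, mul_one]
    have hcard : (A.card : ℝ) ≤ B / C := by
      rw [le_div_iff₀ hC, ← htr]
      calc (A.card : ℝ) * C = ∑ _k ∈ A, C := by rw [Finset.sum_const, nsmul_eq_mul]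
        _ ≤ ∑ k ∈ A, lam k := Finset.sum_le_sum fun k hk => by
            rw [hA, Finset.mem_filter] at hk
            exact hk.2.le
        _ ≤ ∑ k, lam k := Finset.sum_le_sum_of_subset_of_nonneg (Finset.subset_univ A)
            fun k _ _ => hlam k
    have e6 : ∑ ω, φ ω * ∑ k ∈ A, (∑ z, u k z * y ω z) ^ 2 =
        4 * ∑ ω, φ ω * ((∑ k ∈ A, (∑ z, u k z * y ω z) ^ 2) / 4) := by
      rw [Finset.mul_sum]
      exact Finset.sum_congr rfl fun ω _ => by ring
    rw [e6]
    have hl2 : 0 ≤ Real.log 2 := Real.log_nonneg (by norm_num)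
    have e7 : W * (Real.log (∑ ω, Real.exp ((∑ k ∈ A, (∑ z, u k z * y ω z) ^ 2) / 4)) -
        Real.log (Fintype.card Ω)) ≤ W * ((B / C) * (Real.log 2 / 2)) :=
      mul_le_mul_of_nonneg_left (e5.trans (mul_le_mul_of_nonneg_right hcard (by linarith))) hW.le
    have e8 : 2 * Real.log 2 * (B / C) * W = 4 * (W * ((B / C) * (Real.log 2 / 2))) := by ring
    rw [e8]
    linarith

end Pool.Agent.Lib.P325q
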