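import Pool.Agent.Lib.P325q.Defs
import Pool.Agent.Lib.P325q.Base

/-!
P325q.CubeDefs: the lazy hypercube as a weighted multigraph.
-/

open scoped BigOperators

namespace Pool.Agent.Lib.P325q

/-- flip the bit `l` -/
def flp {m : ℕ} (l : Fin m) (x : Fin m → Bool) : Fin m → Bool := Function.update x l (!x l)

/-- The edges: for every vertex a loop (`none`) and an edge to each neighbour. -/
abbrev CE (m : ℕ) : Type := (Fin m → Bool) × Option (Fin m)

/-- first end -/
def cS {m : ℕ} (e : CE m) : Fin m → Bool := e.1

/-- second end -/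
def cT {m : ℕ} (e : CE m) : Fin m → Bool :=
  match e.2 with
  | none => e.1
  | some l => flp l e.1

/-- weights -/
noncomputable def cW {m : ℕ} (z : ℝ) (e : CE m) : ℝ :=
  match e.2 with
  | none => (1 - z) / 2 ^ m
  | some _ => z / (m * 2 ^ m)

end Pool.Agent.Lib.P325q
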