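import Pool.Agent.Lib.P325q.Defs

/-!
The label-extended graph of a unique game on a weighted multigraph with ends `s`, `t` and weights `w`:
`g e` is the permutation of the labels of the edge `e`.
-/

open scoped BigOperators

namespace Pool.Agent.Lib.P325q

variable {V ι L : Type}

/-- First end of the edge `(e, a)` of the label-extended graph: `(s e, a)`. -/
def extS (s : ι → V) (p : ι × L) : V × L := (s p.1, p.2)

/-- Second end of the edge `(e, a)` of the label-extended graph: `(t e, g e a)`. -/
def extT (t : ι → V) (g : ι → Equiv.Perm L) (p : ι × L) : V × L := (t p.1, g p.1 p.2)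

/-- The weight of the edge `(e, a)` of the label-extended graph: the weight of `e`. -/
def extW (w : ι → ℝ) (p : ι × L) : ℝ := w p.1

end Pool.Agent.Lib.P325q
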