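import Pool.Agent.Lib.P325q.ExtDefs

/-!
P325q.ExtLow: mass and energy of the label-extended graph, and slow spaces that do not depend on the
label.
-/

open scoped BigOperators

namespace Pool.Agent.Lib.P325q

theorem density_ext {V ι L : Type} [DecidableEq V] [DecidableEq L] [Fintype ι] [Fintype L]
    (s t : ι → V) (w : ι → ℝ) (g : ι → Equiv.Perm L) (y : V × L) :
    density (extS s) (extT t g) (extW w) y = density s t w y.1 := by
  unfold density
  rw [Fintype.sum_prod_type]
  congr 1
  refine Finset.sum_congr rfl fun e _ => ?_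
  unfold extS extT extW
  simp only
  rw [← Finset.mul_sum, Finset.sum_add_distrib]
  congr 2
  · simp only [Prod.ext_iff]
    by_cases h : s e = y.1
    · simp [h]
    · simp [h]
  · simp only [Prod.ext_iff]
    by_cases h : t e = y.1
    · simp only [h, true_and, if_true]
      rw [Finset.sum_eq_single ((g e).symm y.2)]
      · simp
      · intro a _ ha
        rw [if_neg]
        intro h2
        exact ha (by rw [← h2]; simp)
      · intro h2
        exact absurd (Finset.mem_univ _) h2
    · simp [h]

theorem mass_ext {V ι L : Type} [Fintype V] [DecidableEq V] [DecidableEq L] [Fintype ι]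
    [Fintype L] (s t : ι → V) (w : ι → ℝ) (g : ι → Equiv.Perm L) (σ : V → ℝ)
    (f : V × L → ℝ) :
    mass (extS s) (extT t g) (extW w) (fun y => σ y.1) f =
      ∑ x, ∑ a, density s t w x * σ x * f (x, a) ^ 2 := by
  unfold mass
  rw [Fintype.sum_prod_type]
  exact Finset.sum_congr rfl fun x _ => Finset.sum_congr rfl fun a _ => by
    rw [density_ext]

theorem energy_ext {V ι L : Type} [Fintype ι] [Fintype L] (s t : ι → V) (w : ι → ℝ)
    (g : ι → Equiv.Perm L) (σ : V → ℝ) (f : V × L → ℝ) :
    energy (extS s) (extT t g) (extW w) (fun y => σ y.1) f =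
      ∑ e, ∑ a, w e * (√(σ (s e) * σ (t e)) * (f (s e, a) - f (t e, g e a)) ^ 2) := by
  unfold energy
  rw [Fintype.sum_prod_type]
  rfl

/-- A slow space of a part gives a slow space of the same dimension of the label-extended part. -/
theorem slow_ext {V ι L : Type} [Fintype V] [DecidableEq V] [DecidableEq L] [Fintype ι]
    [Fintype L] [Nonempty L] (s t : ι → V) (w : ι → ℝ) (g : ι → Equiv.Perm L) (σ : V → ℝ)
    (η : ℝ) (F : Submodule ℝ (V → ℝ)) (hF : IsSlow s t w σ η F) :
    ∃ F' : Submodule ℝ (V × L → ℝ),
      IsSlow (extS s) (extT t g) (extW w) (fun y => σ y.1) η F' ∧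
      Module.finrank ℝ F' = Module.finrank ℝ F := by
  set P : (V → ℝ) →ₗ[ℝ] (V × L → ℝ) := LinearMap.funLeft ℝ ℝ (Prod.fst : V × L → V) with hP
  have hPa : ∀ f y, P f y = f y.1 := fun f y => rfl
  have hinj : Function.Injective P := by
    intro f f' h
    funext x
    exact congrFun h (x, Classical.arbitrary L)
  have hL : (0 : ℝ) < Fintype.card L := by exact_mod_cast Fintype.card_pos
  refine ⟨F.map P, ?_, ?_⟩
  · intro f' hf' hne
    obtain ⟨f, hf, rfl⟩ := (Submodule.mem_map).1 hf'
    have hf0 : f ≠ 0 := fun h => hne (by rw [h, map_zero])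
    obtain ⟨h1, h2⟩ := hF f hf hf0
    have e1 : mass (extS s) (extT t g) (extW w) (fun y => σ y.1) (P f) =
        Fintype.card L * mass s t w σ f := by
      rw [mass_ext]
      unfold mass
      rw [Finset.mul_sum]
      refine Finset.sum_congr rfl fun x _ => ?_
      simp only [hPa]
      rw [Finset.sum_const, Finset.card_univ, nsmul_eq_mul]
    have e2 : energy (extS s) (extT t g) (extW w) (fun y => σ y.1) (P f) =
        Fintype.card L * energy s t w σ f := by
      rw [energy_ext]
      unfold energy
      rw [Finset.mul_sum]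
      refine Finset.sum_congr rfl fun e _ => ?_
      simp only [hPa]
      rw [Finset.sum_const, Finset.card_univ, nsmul_eq_mul]
    rw [e1, e2]
    refine ⟨mul_pos hL h1, ?_⟩
    calc (Fintype.card L : ℝ) * energy s t w σ f ≤ Fintype.card L * (η * mass s t w σ f) :=
          mul_le_mul_of_nonneg_left h2 hL.le
      _ = η * (Fintype.card L * mass s t w σ f) := by ring
  · exact (Submodule.equivMapOfInjective P hinj F).symm.finrank_eq

end Pool.Agent.Lib.P325q
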