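import Pool.Agent.Lib.P325q.KL

/-!
P325q.LogSob: the logarithmic Sobolev inequality of the hypercube.

PROOF. `two_point`: for `a, b ≥ 0`:
`a² log a² + b² log b² - (a²+b²) log (a²+b²) + (a²+b²) log 2 ≤ (a-b)²`. By homogeneity (`a = b = 0` is clear) and
symmetry `a² = c (1+s)`, `b² = c (1-s)`, `0 ≤ s ≤ 1`, and the claim is
`(1+s) log (1+s) + (1-s) log (1-s) ≤ 2 - 2 √(1-s²)`: the difference `F` is continuous on `[0,1]`, `F 0 = 0` and
`F' s = 2 s / √(1-s²) - log ((1+s)/(1-s)) ≥ 0` on `(0,1)`, since with `t = √((1+s)/(1-s)) ≥ 1`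
`log t ≤ sinh (log t) = (t - 1/t)/2 = s / √(1-s²)` (`Real.self_le_sinh_iff`, `Real.sinh_log`).
`log_sobolev`: induction on `m`. `m = 0`: `kl = 0`. `m + 1`: `Fin.consEquiv`, `kl_equiv`, `kl_prod`:
`kl σ = kl σ₁ + ∑ q, kl (σ (cons q ·))`, `σ₁ q = ∑ y, σ (cons q y)`; two points:
`kl σ₁ ≤ (√(σ₁ true) - √(σ₁ false))² ≤ ∑ y, (√σ(true, y) - √σ(false, y))²` (reverse triangle inequality in
`ℓ²`, i.e. Cauchy-Schwarz `∑ √(σ σ') ≤ √(∑σ ∑σ')`), which is the `l = 0` term of the right side; the induction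
hypothesis bounds the other terms.
-/

open scoped BigOperators

namespace Pool.Agent.Lib.P325q

namespace LogSobAux

/-- the auxiliary function of the two-point inequality -/
noncomputable def g (y : ℝ) : ℝ := 1 - (1 + y * Real.sinh y) / Real.cosh y + Real.log (Real.cosh y)

theorem hasDerivAt_g (y : ℝ) : HasDerivAt g ((Real.sinh y - y) / Real.cosh y ^ 2) y := by
  have hc : Real.cosh y ≠ 0 := (Real.cosh_pos y).ne'
  have h1 : HasDerivAt (fun y : ℝ => 1 + y * Real.sinh y) (1 * Real.sinh y + y * Real.cosh y) y :=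
    ((hasDerivAt_id y).mul (Real.hasDerivAt_sinh y)).const_add 1
  have h2 := h1.div (Real.hasDerivAt_cosh y) hc
  have h3 := (Real.hasDerivAt_cosh y).log hc
  have h4 := (h2.const_sub 1).add h3
  have h5 : -(((1 * Real.sinh y + y * Real.cosh y) * Real.cosh y -
      (1 + y * Real.sinh y) * Real.sinh y) / Real.cosh y ^ 2) + Real.sinh y / Real.cosh y =
      (Real.sinh y - y) / Real.cosh y ^ 2 := by
    have h6 := Real.cosh_sq y
    have h7 : Real.sinh y / Real.cosh y = Real.sinh y * Real.cosh y / Real.cosh y ^ 2 := by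
      rw [sq, mul_div_mul_right _ _ hc]
    rw [h7, ← neg_div, ← add_div]
    congr 1
    linear_combination (-y) * h6
  rw [← h5]
  exact h4

theorem g_nonneg {y : ℝ} (hy : 0 ≤ y) : 0 ≤ g y := by
  have hm : MonotoneOn g (Set.Ici 0) := by
    refine monotoneOn_of_deriv_nonneg (convex_Ici 0)
      (fun x _ => (hasDerivAt_g x).continuousAt.continuousWithinAt)
      (fun x _ => (hasDerivAt_g x).differentiableAt.differentiableWithinAt) fun x hx => ?_
    rw [interior_Ici] at hx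
    rw [(hasDerivAt_g x).deriv]
    exact div_nonneg (sub_nonneg.2 (Real.self_le_sinh_iff.2 (le_of_lt hx))) (sq_nonneg _)
  have h0 : g 0 = 0 := by
    unfold g
    simp
  have h1 := hm (Set.mem_Ici.2 le_rfl) (Set.mem_Ici.2 hy) hy
  rwa [h0] at h1

theorem sinh_cosh {y : ℝ} (hy : 0 ≤ y) :
    y * Real.sinh y - Real.cosh y * Real.log (Real.cosh y) ≤ Real.cosh y - 1 := by
  have h := g_nonneg hy
  have hc : 0 < Real.cosh y := Real.cosh_pos y
  unfold g at h
  have h1 := mul_nonneg hc.le h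
  have h2 : Real.cosh y * (1 - (1 + y * Real.sinh y) / Real.cosh y + Real.log (Real.cosh y)) =
      Real.cosh y - (1 + y * Real.sinh y) + Real.cosh y * Real.log (Real.cosh y) := by
    field_simp
  rw [h2] at h1
  linarith

theorem two_point_exp {x z : ℝ} (h : z ≤ x) :
    Real.exp x ^ 2 * Real.log (Real.exp x ^ 2) + Real.exp z ^ 2 * Real.log (Real.exp z ^ 2) -
      (Real.exp x ^ 2 + Real.exp z ^ 2) * Real.log (Real.exp x ^ 2 + Real.exp z ^ 2) +
      (Real.exp x ^ 2 + Real.exp z ^ 2) * Real.log 2 ≤ (Real.exp x - Real.exp z) ^ 2 := by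
  have hy : 0 ≤ x - z := sub_nonneg.2 h
  have key := sinh_cosh hy
  set y := x - z with hydef
  have e1 : Real.exp x ^ 2 = Real.exp (x + z) * Real.exp y := by
    rw [← Real.exp_nat_mul, ← Real.exp_add]
    congr 1
    rw [hydef]
    push_cast
    ring
  have e2 : Real.exp z ^ 2 = Real.exp (x + z) * Real.exp (-y) := by
    rw [← Real.exp_nat_mul, ← Real.exp_add]
    congr 1
    rw [hydef]
    push_cast
    ring
  have e3 : Real.exp x * Real.exp z = Real.exp (x + z) := (Real.exp_add x z).symm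
  have e4 : Real.exp x ^ 2 + Real.exp z ^ 2 = 2 * Real.exp (x + z) * Real.cosh y := by
    rw [e1, e2, Real.cosh_eq]
    ring
  have hE : 0 < Real.exp (x + z) := Real.exp_pos _
  have hc : 0 < Real.cosh y := Real.cosh_pos y
  have l1 : Real.log (Real.exp x ^ 2) = 2 * x := by
    rw [Real.log_pow, Real.log_exp]
    push_cast
    ring
  have l2 : Real.log (Real.exp z ^ 2) = 2 * z := by
    rw [Real.log_pow, Real.log_exp]
    push_cast
    ring
  have l3 : Real.log (Real.exp x ^ 2 + Real.exp z ^ 2) =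
      Real.log 2 + (x + z) + Real.log (Real.cosh y) := by
    rw [e4, Real.log_mul (mul_pos two_pos hE).ne' hc.ne', Real.log_mul two_ne_zero hE.ne', Real.log_exp]
  have e5 : (Real.exp x - Real.exp z) ^ 2 = Real.exp (x + z) * (2 * Real.cosh y - 2) := by
    have : (Real.exp x - Real.exp z) ^ 2 =
        (Real.exp x ^ 2 + Real.exp z ^ 2) - 2 * (Real.exp x * Real.exp z) := by ring
    rw [this, e4, e3]
    ring
  rw [l3, l1, l2, e5, e4, e1, e2]
  have e6 : Real.exp (x + z) * Real.exp y * (2 * x) + Real.exp (x + z) * Real.exp (-y) * (2 * z) -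
      2 * Real.exp (x + z) * Real.cosh y * (Real.log 2 + (x + z) + Real.log (Real.cosh y)) +
      2 * Real.exp (x + z) * Real.cosh y * Real.log 2 =
      Real.exp (x + z) * (2 * (y * Real.sinh y - Real.cosh y * Real.log (Real.cosh y))) := by
    rw [Real.cosh_eq, Real.sinh_eq, hydef]
    ring
  rw [e6]
  refine mul_le_mul_of_nonneg_left ?_ hE.le
  linarith

theorem two_point_le {a b : ℝ} (hb : 0 ≤ b) (hab : b ≤ a) :
    a ^ 2 * Real.log (a ^ 2) + b ^ 2 * Real.log (b ^ 2) -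
      (a ^ 2 + b ^ 2) * Real.log (a ^ 2 + b ^ 2) + (a ^ 2 + b ^ 2) * Real.log 2 ≤ (a - b) ^ 2 := by
  rcases hb.eq_or_lt with h | h
  · rw [← h]
    have h2 : Real.log 2 ≤ 1 := by
      have := Real.log_two_lt_d9
      linarith
    have h3 := mul_le_mul_of_nonneg_left h2 (sq_nonneg a)
    have h4 : a ^ 2 * Real.log (a ^ 2) + 0 ^ 2 * Real.log (0 ^ 2) -
      (a ^ 2 + 0 ^ 2) * Real.log (a ^ 2 + 0 ^ 2) + (a ^ 2 + 0 ^ 2) * Real.log 2 = a ^ 2 * Real.log 2 := by
      rw [zero_pow two_ne_zero, add_zero]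
      ring
    rw [h4, sub_zero]
    linarith
  · have ha' : 0 < a := lt_of_lt_of_le h hab
    have h1 := two_point_exp (Real.log_le_log h hab)
    rwa [Real.exp_log ha', Real.exp_log h] at h1

theorem two_point {a b : ℝ} (ha : 0 ≤ a) (hb : 0 ≤ b) :
    a ^ 2 * Real.log (a ^ 2) + b ^ 2 * Real.log (b ^ 2) -
      (a ^ 2 + b ^ 2) * Real.log (a ^ 2 + b ^ 2) + (a ^ 2 + b ^ 2) * Real.log 2 ≤ (a - b) ^ 2 := by
  rcases le_total b a with h | h
  · exact two_point_le hb h
  · have h1 := two_point_le ha h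
    rw [add_comm (b ^ 2) (a ^ 2), add_comm (b ^ 2 * Real.log (b ^ 2))] at h1
    refine h1.trans (le_of_eq ?_)
    ring

theorem kl_bool (σ : Bool → ℝ) (hσ : ∀ q, 0 ≤ σ q) :
    kl σ ≤ (√(σ true) - √(σ false)) ^ 2 := by
  have h := two_point (Real.sqrt_nonneg (σ true)) (Real.sqrt_nonneg (σ false))
  rw [Real.sq_sqrt (hσ true), Real.sq_sqrt (hσ false)] at h
  unfold kl
  rw [Fintype.sum_bool, Fintype.sum_bool, Fintype.card_bool]
  push_cast
  exact h

/-- the reverse triangle inequality in `ℓ²` -/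
theorem sqrt_sum_sub {Y : Type} [Fintype Y] (f h : Y → ℝ) (hf : ∀ y, 0 ≤ f y) (hh : ∀ y, 0 ≤ h y) :
    (√(∑ y, f y) - √(∑ y, h y)) ^ 2 ≤ ∑ y, (√(f y) - √(h y)) ^ 2 := by
  have h1 : ∑ y, (√(f y) - √(h y)) ^ 2 = ∑ y, f y + ∑ y, h y - 2 * ∑ y, √(f y) * √(h y) := by
    rw [Finset.mul_sum, ← Finset.sum_add_distrib, ← Finset.sum_sub_distrib]
    refine Finset.sum_congr rfl fun y _ => ?_
    have e1 := Real.sq_sqrt (hf y)
    have e2 := Real.sq_sqrt (hh y)
    nlinarith
  have h2 : (√(∑ y, f y) - √(∑ y, h y)) ^ 2 =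
      ∑ y, f y + ∑ y, h y - 2 * (√(∑ y, f y) * √(∑ y, h y)) := by
    have e1 := Real.sq_sqrt (Finset.sum_nonneg fun y (_ : y ∈ Finset.univ) => hf y)
    have e2 := Real.sq_sqrt (Finset.sum_nonneg fun y (_ : y ∈ Finset.univ) => hh y)
    nlinarith
  have h3 : ∑ y, √(f y) * √(h y) ≤ √(∑ y, f y) * √(∑ y, h y) := by
    have := Real.sum_mul_le_sqrt_mul_sqrt Finset.univ (fun y => √(f y)) (fun y => √(h y))
    simpa only [Real.sq_sqrt (hf _), Real.sq_sqrt (hh _)] using this
  rw [h1, h2]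
  linarith

end LogSobAux

open LogSobAux in
theorem log_sobolev (m : ℕ) (σ : (Fin m → Bool) → ℝ) (hσ : ∀ x, 0 ≤ σ x) :
    kl σ ≤ 1 / 2 * ∑ l : Fin m, ∑ x, (√(σ x) - √(σ (Function.update x l (!x l)))) ^ 2 := by
  induction m with
  | zero =>
    have h1 : kl σ = 0 := by
      unfold kl
      simp
    rw [h1]
    simp
  | succ m ih =>
    let e : Bool × (Fin m → Bool) ≃ (Fin (m + 1) → Bool) := Fin.consEquiv (fun _ => Bool)
    have he : ∀ q y, e (q, y) = Fin.cons q y := fun q y => rfl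
    have h1 : kl σ = kl (fun q : Bool => ∑ y, σ (Fin.cons q y)) +
        ∑ q : Bool, kl (fun y => σ (Fin.cons q y)) := by
      rw [← kl_equiv e σ, kl_prod]
      rfl
    have hsum : ∀ F : (Fin (m + 1) → Bool) → ℝ, ∑ x, F x = ∑ q : Bool, ∑ y, F (Fin.cons q y) := by
      intro F
      rw [← Equiv.sum_comp e F, Fintype.sum_prod_type]
      rfl
    have h2 : kl (fun q : Bool => ∑ y, σ (Fin.cons q y)) ≤
        ∑ y : Fin m → Bool, (√(σ (Fin.cons true y)) - √(σ (Fin.cons false y))) ^ 2 :=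
      (kl_bool _ fun q => Finset.sum_nonneg fun y _ => hσ _).trans
        (sqrt_sum_sub _ _ (fun y => hσ _) (fun y => hσ _))
    have h3 : ∑ q : Bool, kl (fun y => σ (Fin.cons q y)) ≤
        ∑ q : Bool, (1 / 2 * ∑ l : Fin m, ∑ y, (√(σ (Fin.cons q y)) -
          √(σ (Fin.cons q (Function.update y l (!y l))))) ^ 2) :=
      Finset.sum_le_sum fun q _ => ih _ fun y => hσ _
    rw [Fin.sum_univ_succ]
    have h4 : ∑ x : Fin (m + 1) → Bool, (√(σ x) - √(σ (Function.update x 0 (!x 0)))) ^ 2 =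
        2 * ∑ y : Fin m → Bool, (√(σ (Fin.cons true y)) - √(σ (Fin.cons false y))) ^ 2 := by
      rw [hsum, Fintype.sum_bool, two_mul]
      congr 1
      · refine Finset.sum_congr rfl fun y _ => ?_
        rw [Fin.cons_zero, Fin.update_cons_zero]
        rfl
      · refine Finset.sum_congr rfl fun y _ => ?_
        rw [Fin.cons_zero, Fin.update_cons_zero]
        change (√(σ (Fin.cons false y)) - √(σ (Fin.cons true y))) ^ 2 = _
        ring
    have h5 : ∑ l : Fin m, ∑ x : Fin (m + 1) → Bool,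
        (√(σ x) - √(σ (Function.update x l.succ (!x l.succ)))) ^ 2 =
        ∑ q : Bool, ∑ l : Fin m, ∑ y, (√(σ (Fin.cons q y)) -
          √(σ (Fin.cons q (Function.update y l (!y l))))) ^ 2 := by
      rw [Finset.sum_comm (s := (Finset.univ : Finset Bool))]
      refine Finset.sum_congr rfl fun l _ => ?_
      rw [hsum]
      refine Finset.sum_congr rfl fun q _ => Finset.sum_congr rfl fun y _ => ?_
      rw [Fin.cons_succ, Fin.cons_update]
    rw [h4, h5, mul_add, ← mul_assoc, Finset.mul_sum (s := (Finset.univ : Finset Bool))]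
    rw [h1]
    have h6 : (1 / 2 * 2 : ℝ) = 1 := by norm_num
    rw [h6, one_mul]
    exact add_le_add h2 h3

end Pool.Agent.Lib.P325q
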