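import Mathlib

/-!
P325q.Num: the numbers.

PROOF. `blocks`: `j = ⌊x m / 1024⌋₊ ≥ 1` (as `x m ≥ 1024`), `j ≥ x m / 2048`; `b = m / j` (natural division), so
`b > m/j - 1 ≥ 1024/x - 1 ≥ 512/x` and `j b > m - j ≥ m/2` (`j ≤ m/1024`), `j b ≤ m`.
`final_num`: `B = 8 D/(j b) + 4 log 2 / 12 ≤ 1/4 + 0.2311` (`D ≤ m/64`, `j b ≥ m/2`, `Real.log_two_lt_d9`), `√B ≤ 0.694`,
`√(7/8) ≥ 0.935`. So `2^j √R √√((12/b)^j) ≥ 0.241`; square: `R * 4^j * √((12/b)^j) ≥ 0.058`, i.e.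
`R ≥ 0.058 * √((b/192)^j) ≥ (1/20) * √((2/x)^j)` (`b ≥ 512/x`, `512/192 ≥ 2`), and
`√((2/x)^j) = exp (j/2 * log (2/x)) ≥ exp (x m/4096 * log (2/x)) ≥ (2^m)^(x log (2/x)/3000)`
because `1/4096 ≥ log 2 / 3000` and `log (2/x) ≥ 0`.
-/

open scoped BigOperators

namespace Pool.Agent.Lib.P325q

theorem blocks {m : ℕ} (hm : 0 < m) {x : ℝ} (hx0 : 1024 / m ≤ x) (hx1 : x ≤ 1) :
    ∃ j b : ℕ, 0 < j ∧ (j : ℝ) ≤ x * m / 1024 ∧ x * m / 2048 ≤ j ∧ 512 / x ≤ (b : ℝ) ∧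
      j * b ≤ m ∧ (m : ℝ) / 2 ≤ j * b := by
  have hmR : (0 : ℝ) < m := by exact_mod_cast hm
  have hxm : 1024 ≤ x * m := by
    rw [div_le_iff₀ hmR] at hx0
    exact hx0
  have hx : 0 < x := by
    have : 0 < 1024 / (m : ℝ) := by positivity
    linarith
  have hy : (1 : ℝ) ≤ x * m / 1024 := by
    rw [le_div_iff₀ (by norm_num)]
    linarith
  have hj1 : 1 ≤ ⌊x * m / 1024⌋₊ := by
    rw [Nat.one_le_floor_iff]
    exact hy
  have hj1R : (1 : ℝ) ≤ (⌊x * m / 1024⌋₊ : ℝ) := by exact_mod_cast hj1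
  have hjle : ((⌊x * m / 1024⌋₊ : ℕ) : ℝ) ≤ x * m / 1024 := Nat.floor_le (by positivity)
  have hjlt : x * m / 1024 < (⌊x * m / 1024⌋₊ : ℝ) + 1 := Nat.lt_floor_add_one _
  set j : ℕ := ⌊x * m / 1024⌋₊ with hjdef
  have hjpos : 0 < j := hj1
  have hjR : (0 : ℝ) < j := by exact_mod_cast hjpos
  have hbR : (m : ℝ) < j * ((m / j : ℕ) : ℝ) + j := by
    have h1 : m < j * (m / j + 1) := Nat.lt_mul_div_succ m hjpos
    have h2 : (m : ℝ) < j * (((m / j : ℕ) : ℝ) + 1) := by exact_mod_cast h1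
    linarith
  have hjm : (j : ℝ) ≤ m / 1024 := by
    refine hjle.trans ?_
    apply div_le_div_of_nonneg_right _ (by norm_num)
    nlinarith
  refine ⟨j, m / j, hjpos, hjle, ?_, ?_, Nat.mul_div_le m j, ?_⟩
  · linarith
  · have hxj : j * (1024 / x) ≤ (m : ℝ) := by
      rw [mul_div_assoc', div_le_iff₀ hx]
      linarith
    have h3 : (j : ℝ) * (1024 / x) < j * (((m / j : ℕ) : ℝ) + 1) := by linarith
    have h4 : 1024 / x < ((m / j : ℕ) : ℝ) + 1 := lt_of_mul_lt_mul_left h3 hjR.le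
    have h5 : (1 : ℝ) ≤ 512 / x := by
      rw [le_div_iff₀ hx]
      linarith
    have h6 : 1024 / x = 512 / x + 512 / x := by ring
    linarith
  · linarith

theorem final_num {m j b : ℕ} (hm : 0 < m) (hj : 0 < j) {x : ℝ} (hx0 : 0 < x) (hx1 : x ≤ 1)
    (hj2 : x * m / 2048 ≤ j) (hb : 512 / x ≤ (b : ℝ)) (hjb : (m : ℝ) / 2 ≤ j * b) {D : ℝ}
    (hD0 : 0 ≤ D) (hD : D ≤ m / 64) {R : ℝ} (hR : 0 ≤ R)
    (h : √(7 / 8) ≤ 2 ^ j * (√R * √(√((12 / (b : ℝ)) ^ j))) +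
      √(8 * D / (j * b) + 4 * Real.log 2 / 12)) :
    1 / 20 * ((2 ^ m : ℕ) : ℝ) ^ (x * Real.log (2 / x) / 3000) ≤ R := by
  have hmR : (0 : ℝ) < m := by exact_mod_cast hm
  have hjR : (0 : ℝ) < j := by exact_mod_cast hj
  have hbpos : (0 : ℝ) < b := lt_of_lt_of_le (by positivity) hb
  have hjbpos : (0 : ℝ) < j * b := by positivity
  have hlog2 := Real.log_two_lt_d9
  have hlog2' := Real.log_two_gt_d9
  -- the bound of the error term
  have hB : 8 * D / (j * b) ≤ 1 / 4 := by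
    rw [div_le_iff₀ hjbpos]
    linarith
  have hB2 : 8 * D / (j * b) + 4 * Real.log 2 / 12 ≤ (0.694 : ℝ) ^ 2 := by
    have : 4 * Real.log 2 / 12 ≤ 0.2311 := by linarith
    norm_num at this ⊢
    linarith
  have hsB : √(8 * D / (j * b) + 4 * Real.log 2 / 12) ≤ 0.694 := by
    apply Real.sqrt_le_iff.mpr
    exact ⟨by norm_num, hB2⟩
  have hs78 : (0.935 : ℝ) ≤ √(7 / 8) := by
    apply Real.le_sqrt_of_sq_le
    norm_num
  set q : ℝ := 12 / (b : ℝ) with hq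
  have hqpos : 0 < q := by positivity
  have hmain : (0.241 : ℝ) ≤ 2 ^ j * (√R * √(√(q ^ j))) := by
    have : (0.935 : ℝ) - 0.694 = 0.241 := by norm_num
    linarith
  have hsq : (0.241 : ℝ) ^ 2 ≤ (2 ^ j * (√R * √(√(q ^ j)))) ^ 2 :=
    pow_le_pow_left₀ (by norm_num) hmain 2
  have hsq2 : (2 ^ j * (√R * √(√(q ^ j)))) ^ 2 = (4 : ℝ) ^ j * (R * √(q ^ j)) := by
    rw [mul_pow, mul_pow, Real.sq_sqrt hR, Real.sq_sqrt (Real.sqrt_nonneg _), ← pow_mul,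
      mul_comm j 2, pow_mul]
    norm_num
  rw [hsq2] at hsq
  have h058 : (1 / 20 : ℝ) ≤ (4 : ℝ) ^ j * (R * √(q ^ j)) := by
    refine le_trans ?_ hsq
    norm_num
  -- the product bound
  have h2x : 0 < 2 / x := by positivity
  have hbx : 512 ≤ b * x := by
    rw [div_le_iff₀ hx0] at hb
    exact hb
  have h4sqrt : (4 : ℝ) ^ j = √(16 ^ j) := by
    rw [show (16 : ℝ) ^ j = (4 ^ j) ^ 2 by rw [← pow_mul, mul_comm j 2, pow_mul]; norm_num]
    rw [Real.sqrt_sq (by positivity)]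
  have hprod : (4 : ℝ) ^ j * √(q ^ j) * √((2 / x) ^ j) ≤ 1 := by
    rw [h4sqrt, ← Real.sqrt_mul (by positivity), ← Real.sqrt_mul (by positivity), ← mul_pow,
      ← mul_pow]
    apply Real.sqrt_le_one.mpr
    apply pow_le_one₀ (by positivity)
    rw [hq]
    have : 16 * (12 / (b : ℝ)) * (2 / x) = 384 / (b * x) := by
      field_simp
      norm_num
    rw [this, div_le_one (by positivity)]
    linarith
  have hRge : 1 / 20 * √((2 / x) ^ j) ≤ R := by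
    have h1 : 1 / 20 * √((2 / x) ^ j) ≤ (4 : ℝ) ^ j * (R * √(q ^ j)) * √((2 / x) ^ j) :=
      mul_le_mul_of_nonneg_right h058 (Real.sqrt_nonneg _)
    have h2 : (4 : ℝ) ^ j * (R * √(q ^ j)) * √((2 / x) ^ j) =
        R * ((4 : ℝ) ^ j * √(q ^ j) * √((2 / x) ^ j)) := by ring
    have h3 : R * ((4 : ℝ) ^ j * √(q ^ j) * √((2 / x) ^ j)) ≤ R * 1 :=
      mul_le_mul_of_nonneg_left hprod hR
    linarith
  refine le_trans ?_ hRge
  apply mul_le_mul_of_nonneg_left _ (by norm_num)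
  have hlogx : 0 ≤ Real.log (2 / x) := by
    apply Real.log_nonneg
    rw [le_div_iff₀ hx0]
    linarith
  have hsqrt : √((2 / x) ^ j) = Real.exp ((j : ℝ) / 2 * Real.log (2 / x)) := by
    rw [Real.sqrt_eq_rpow, ← Real.rpow_natCast, ← Real.rpow_mul h2x.le,
      Real.rpow_def_of_pos h2x]
    congr 1
    ring
  rw [hsqrt]
  rw [Nat.cast_pow, Nat.cast_ofNat, ← Real.rpow_natCast, ← Real.rpow_mul (by norm_num),
    Real.rpow_def_of_pos (by norm_num)]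
  apply Real.exp_le_exp.mpr
  have hkey : Real.log 2 * (m * x) / 3000 ≤ (j : ℝ) / 2 := by
    have h1 : Real.log 2 * (m * x) ≤ 0.6931471808 * (m * x) :=
      mul_le_mul_of_nonneg_right hlog2.le (by positivity)
    have h2 : 0 < (m : ℝ) * x := by positivity
    nlinarith
  calc Real.log 2 * (m * (x * Real.log (2 / x) / 3000))
      = (Real.log 2 * (m * x) / 3000) * Real.log (2 / x) := by ring
    _ ≤ (j : ℝ) / 2 * Real.log (2 / x) := mul_le_mul_of_nonneg_right hkey hlogx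

end Pool.Agent.Lib.P325q
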