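import Pool.Agent.Lib.P325q.KL

/-!
P325q.Proj: the blocks of coordinates and the image of a measure.  `e : Fin j × Fin b ↪ Fin m` are the block
coordinates, `π v l c = v (e (l, c))`.

PROOF. With `p l = l ∈ Set.range e` there is an equivalence
`(Fin m → Θ) ≃ (Fin j → Fin b → Θ) × ({l // ¬ p l} → Θ)`, `v ↦ (π v, rest)`: `Equiv.piEquivPiSubtypeProd`, then
`Equiv.arrowCongr` with `Equiv.ofInjective e`, then `Equiv.curry`. So (`kl_equiv`, `kl_prod`, `kl_nonneg`)
`kl (push) ≤ kl σ`, and `∑ ω, push ω * g ω = ∑ v, σ v * g (π v)`: `Finset.sum_fiberwise` or `Finset.sum_comm`.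
-/

open scoped BigOperators

namespace Pool.Agent.Lib.P325q

/-- the image of the measure `σ` under the projection to the block coordinates -/
noncomputable def push {m j b : ℕ} {Θ : Type} [Fintype Θ] [DecidableEq Θ]
    (e : Fin j × Fin b ↪ Fin m) (σ : (Fin m → Θ) → ℝ) (ω : Fin j → Fin b → Θ) : ℝ :=
  ∑ v : Fin m → Θ, if (fun l c => v (e (l, c))) = ω then σ v else 0

theorem push_nonneg {m j b : ℕ} {Θ : Type} [Fintype Θ] [DecidableEq Θ]
    (e : Fin j × Fin b ↪ Fin m) (σ : (Fin m → Θ) → ℝ) (hσ : ∀ v, 0 ≤ σ v)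
    (ω : Fin j → Fin b → Θ) : 0 ≤ push e σ ω := by
  unfold push
  refine Finset.sum_nonneg fun v _ => ?_
  split_ifs
  · exact hσ v
  · exact le_rfl

theorem sum_push {m j b : ℕ} {Θ : Type} [Fintype Θ] [DecidableEq Θ]
    (e : Fin j × Fin b ↪ Fin m) (σ : (Fin m → Θ) → ℝ) (g : (Fin j → Fin b → Θ) → ℝ) :
    ∑ ω, push e σ ω * g ω = ∑ v, σ v * g (fun l c => v (e (l, c))) := by
  unfold push
  simp only [Finset.sum_mul]
  rw [Finset.sum_comm]
  refine Finset.sum_congr rfl fun v _ => ?_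
  simp only [ite_mul, zero_mul]
  rw [Finset.sum_ite_eq]
  simp

namespace ProjAux

/-- the coordinates in the blocks and the other coordinates -/
noncomputable def eqv {m j b : ℕ} (Θ : Type) (e : Fin j × Fin b ↪ Fin m)
    [DecidablePred (fun l : Fin m => l ∈ Set.range e)] :
    (Fin m → Θ) ≃ (Fin j → Fin b → Θ) × ({l : Fin m // ¬ l ∈ Set.range e} → Θ) :=
  (Equiv.piEquivPiSubtypeProd (fun l : Fin m => l ∈ Set.range e) (fun _ => Θ)).trans
    (Equiv.prodCongr
      ((Equiv.arrowCongr (Equiv.ofInjective e e.injective).symm (Equiv.refl Θ)).trans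
        (Equiv.curry (Fin j) (Fin b) Θ)) (Equiv.refl _))

theorem eqv_fst {m j b : ℕ} (Θ : Type) (e : Fin j × Fin b ↪ Fin m)
    [DecidablePred (fun l : Fin m => l ∈ Set.range e)] (v : Fin m → Θ) :
    (eqv Θ e v).1 = fun l c => v (e (l, c)) := by
  funext l c
  rfl

end ProjAux

theorem kl_push {m j b : ℕ} {Θ : Type} [Fintype Θ] [DecidableEq Θ] [Nonempty Θ]
    (e : Fin j × Fin b ↪ Fin m) (σ : (Fin m → Θ) → ℝ) (hσ : ∀ v, 0 ≤ σ v) :
    kl (push e σ) ≤ kl σ := by
  classical
  set E := ProjAux.eqv Θ e with hE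
  set φ : (Fin j → Fin b → Θ) × ({l : Fin m // ¬ l ∈ Set.range e} → Θ) → ℝ :=
    fun z => σ (E.symm z) with hφ
  have h1 : kl σ = kl φ := by
    rw [← kl_equiv E φ]
    congr 1
    funext v
    rw [hφ]
    simp
  have h2 : push e σ = fun x => ∑ y, φ (x, y) := by
    funext ω
    unfold push
    rw [← Equiv.sum_comp E.symm]
    have h3 : ∀ z : (Fin j → Fin b → Θ) × ({l : Fin m // ¬ l ∈ Set.range e} → Θ),
        (if (fun l c => E.symm z (e (l, c))) = ω then σ (E.symm z) else 0) =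
          if z.1 = ω then φ z else 0 := by
      intro z
      have h4 : (fun l c => E.symm z (e (l, c))) = z.1 := by
        rw [← ProjAux.eqv_fst Θ e (E.symm z), ← hE, Equiv.apply_symm_apply]
      rw [h4]
    rw [Finset.sum_congr rfl fun z _ => h3 z, Fintype.sum_prod_type]
    rw [Finset.sum_eq_single ω]
    · simp
    · intro x _ hx
      simp [hx]
    · intro h
      exact absurd (Finset.mem_univ _) h
  rw [h1, h2, kl_prod φ]
  have h5 : 0 ≤ ∑ x, kl (fun y => φ (x, y)) :=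
    Finset.sum_nonneg fun x _ => kl_nonneg _ fun y => hσ _
  linarith

end Pool.Agent.Lib.P325q
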