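import Pool.Agent.Lib.P325q.Base

/-!
P325q.Sub: products of subgaussian vectors, and the sign.

PROOF. `sub_prod`: `exp (∑ (i,γ), s (i,γ) * z (ω i) γ) = ∏ i, exp (∑ γ, s (i,γ) * z (ω i) γ)`, the sum over
`ω : Fin b → Θ` is the product over `i` of the sums over `θ` (`Finset.prod_univ_sum`, `Fintype.piFinset_univ`),
each at most `|Θ| exp (1/2 ∑ γ, s (i,γ)²)` (`Finset.prod_le_prod`); `|Fin b → Θ| = |Θ|^b`.
`norm_prod`: `Fintype.sum_prod_type`. `sub_sign`: `exp a + exp (-a) = 2 cosh a ≤ 2 exp (a²/2)`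
(`Real.cosh_le_exp_half_sq`).
-/

open scoped BigOperators

namespace Pool.Agent.Lib.P325q

theorem sub_prod {Θ Γ : Type} [Fintype Θ] [Fintype Γ] (z : Θ → Γ → ℝ)
    (hz : ∀ a : Γ → ℝ, ∑ θ, Real.exp (∑ γ, a γ * z θ γ) ≤
      Fintype.card Θ * Real.exp (1 / 2 * ∑ γ, a γ ^ 2)) (b : ℕ) (s : Fin b × Γ → ℝ) :
    ∑ ω : Fin b → Θ, Real.exp (∑ p, s p * z (ω p.1) p.2) ≤
      Fintype.card (Fin b → Θ) * Real.exp (1 / 2 * ∑ p, s p ^ 2) := by
  classical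
  have h1 : ∀ ω : Fin b → Θ, Real.exp (∑ p, s p * z (ω p.1) p.2) =
      ∏ i, Real.exp (∑ γ, s (i, γ) * z (ω i) γ) := by
    intro ω
    rw [Fintype.sum_prod_type, Real.exp_sum]
  simp only [h1]
  have h2 : ∑ ω : Fin b → Θ, ∏ i, Real.exp (∑ γ, s (i, γ) * z (ω i) γ) =
      ∏ i : Fin b, ∑ θ : Θ, Real.exp (∑ γ, s (i, γ) * z θ γ) := by
    rw [Finset.prod_univ_sum, Fintype.piFinset_univ]
  rw [h2]
  calc ∏ i : Fin b, ∑ θ : Θ, Real.exp (∑ γ, s (i, γ) * z θ γ)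
      ≤ ∏ i : Fin b, ((Fintype.card Θ : ℝ) * Real.exp (1 / 2 * ∑ γ, s (i, γ) ^ 2)) := by
        refine Finset.prod_le_prod (fun i _ => ?_) (fun i _ => hz (fun γ => s (i, γ)))
        exact Finset.sum_nonneg fun θ _ => (Real.exp_pos _).le
    _ = Fintype.card (Fin b → Θ) * Real.exp (1 / 2 * ∑ p, s p ^ 2) := by
        rw [Finset.prod_mul_distrib, Finset.prod_const, Finset.card_univ, Fintype.card_fin, ← Real.exp_sum,
          ← Finset.mul_sum, Fintype.sum_prod_type, Fintype.card_fun, Fintype.card_fin, Nat.cast_pow]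

theorem norm_prod {Θ Γ : Type} [Fintype Γ] (z : Θ → Γ → ℝ)
    (hz : ∀ θ, ∑ γ, z θ γ ^ 2 = 1) (b : ℕ) (ω : Fin b → Θ) :
    ∑ p : Fin b × Γ, z (ω p.1) p.2 ^ 2 = b := by
  rw [Fintype.sum_prod_type]
  simp only [hz, Finset.sum_const, Finset.card_univ, Fintype.card_fin, nsmul_eq_mul, mul_one]

theorem sub_sign (a : Unit → ℝ) :
    ∑ θ : Bool, Real.exp (∑ γ, a γ * sg θ) ≤
      Fintype.card Bool * Real.exp (1 / 2 * ∑ γ, a γ ^ 2) := by
  have h := Real.cosh_le_exp_half_sq (a ())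
  rw [Real.cosh_eq] at h
  simp only [Fintype.sum_bool, Finset.univ_unique, Finset.sum_singleton, PUnit.default_eq_unit, sg,
    Fintype.card_bool]
  simp only [if_true, mul_one, mul_neg, Bool.false_eq_true, if_false, Nat.cast_ofNat]
  have e1 : (1 / 2 : ℝ) * a () ^ 2 = a () ^ 2 / 2 := by ring
  rw [e1]
  linarith

end Pool.Agent.Lib.P325q
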